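import Pool.Agent.Helper55.FR.Defs

/-!
# Fan-Raspaud in cubic expanders of large girth: goals, part B (counting)
-/

namespace Pool.Agent.Helper55.FR

open Finset

/-- PRB. Property B with `r` colours by Rosenfeld's counting argument. Proof: for an invariant set
`S` (`x ∈ S → m x ∈ S`) let `N S` be the number of functions `c : V → Fin r` which are `0` off `S`,
satisfy `c (m x) = c x`, and such that every `U ∈ 𝒰`, `U ⊆ S`, sees all colours. Let `λ = r - 1/2`.
Claim: `N (S ∪ {x, m x}) ≥ λ N S` for `x ∉ S`; induction on `|S|`. The colourings of `S ∪ {x, m x}`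
which are good on `S` are `r N S` many. For each of them which is not good there are `U ∈ 𝒰`,
`x ∈ U ⊆ S ∪ {x, m x}`, and a colour `i` missing on `U`; for given `U` and `i` the number of these
colourings is at most `(r - 1)^b N (S')`, where `S' = (S ∪ {x, m x}) \ U` and `b = |U| / 2` is the
number of matching edges in `U`; by induction (adding the `b - 1` pairs of `U \ {x, m x}` one by one)
`N S ≥ λ^(b-1) N S'`. So `N (S ∪ {x, m x}) ≥ N S * (r - r λ ∑_U ((r-1)/λ)^b)`, and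
`(r-1)/λ ≤ (1 - 1/(4r))^2`, so the sum is at most `1/(2 r^2)` and `r λ / (2 r^2) ≤ 1/2`. As `N ∅ = 1`
(no `U` is empty), `N V > 0`. -/
def PrbStmt : Prop := ∀ (V : Type) [Fintype V] [DecidableEq V] (m : V → V), (∀ v, m (m v) = v) →
  (∀ v, m v ≠ v) → ∀ (r : ℕ), 1 ≤ r → ∀ U : Finset (Finset V),
    (∀ u ∈ U, u.Nonempty ∧ ∀ x ∈ u, m x ∈ u) →
    (∀ x, ∑ u ∈ U.filter (fun u => x ∈ u), (1 - 1 / (4 * (r : ℝ))) ^ u.card ≤
      1 / (2 * (r : ℝ) ^ 2)) →
      ∃ c : V → Fin r, (∀ x, c (m x) = c x) ∧ ∀ u ∈ U, ∀ i, ∃ x ∈ u, c x = i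

/-- GCY. Proof: let `0 < i < g` and `(n ^ i) v = v`; the set `K = {(n ^ j) v | j < i}` is nonempty, has
at most `i` elements, and contains with `x` also `n x` and `n⁻¹ x`, which are different (`Cub.nn`)
neighbours of `x`. -/
def GcyStmt : Prop := ∀ (V : Type) [Fintype V] [DecidableEq V] (n : Equiv.Perm V) (m : V → V)
  (g : ℕ), Cub n m → Gir n m g → ∀ (v : V) (i : ℕ), 0 < i → i < g → (n ^ i) v ≠ v

/-- BLKS. Proof: let `S` be a maximal set such that `s ∈ S`, `0 < i < L` imply `(n ^ i) s ∉ S`. For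
every `v` there is `j ≤ 2 L - 2` with `(n ^ j)⁻¹ v ∈ S`: otherwise `w = (n ^ (L - 1))⁻¹ v` could be
added to `S` (`(n ^ i) w ≠ w` for `0 < i < L` by hypothesis). Let `blk v = (n ^ j)⁻¹ v` with the
smallest such `j`. The elements with `blk x = s` are `(n ^ j) s`, `j < ℓ`, where `ℓ` is the smallest
positive number with `(n ^ ℓ) s ∈ S`; `L ≤ ℓ ≤ 2 L - 1`, and these elements are different. -/
def BlksStmt : Prop := ∀ (V : Type) [Fintype V] [DecidableEq V] (n : Equiv.Perm V) (L : ℕ),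
  1 ≤ L → (∀ (v : V) (i : ℕ), 0 < i → i < L → (n ^ i) v ≠ v) → ∃ blk, Blk n L blk

/-- TCH. Proof: a block `s` meeting `D` is either contained in `D` (it has at least `L` elements, the
blocks are disjoint) or contains `v ∈ D`, `w ∉ D`; going along the path from `s` to `v` and to `w`
there is an `x` in the block with `n x` in the block and exactly one of `x`, `n x` in `D`, so
`x ∈ Xr n D`; different blocks give different `x`. -/
def TchStmt : Prop := ∀ (V : Type) [Fintype V] [DecidableEq V] (n : Equiv.Perm V) (L : ℕ)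
  (blk : V → V), Blk n L blk → ∀ D : Finset V, L * (D.image blk).card ≤ D.card + L * (Xr n D).card

open Classical in
/-- CON. Counting rooted sets. Proof: let `u = 1/(4Δ)`; `(1 + 2u)^Δ ≤ exp (1/2) ≤ 2`. More generally
for all `X` and `Z ⊆ X` the sum over all `Y ⊆ X` with `Rooted r Z Y` is at most `(1 + 2u)^|Z|`;
induction on `|X|`. If `Z = ∅` only `Y = ∅` is rooted. Let `z ∈ Z`, `X' = X \ {z}`. The `Y` with
`z ∉ Y` are rooted for `Z \ {z}` in `X'`. If `z ∈ Y` then `Y \ {z} ⊆ X'` is rooted for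
`(Z \ {z}) ∪ {x ∈ X' | r z x}`: let `S ⊆ Y \ {z}` be nonempty and closed in `Y \ {z}`; if some
element of `S` is adjacent to `z` it is one of the new roots, otherwise `S` is closed in `Y`. So the
sum is at most `(1+2u)^(|Z|-1) + u (1+2u)^(|Z|-1+Δ) ≤ (1+2u)^(|Z|-1) (1 + 2u)`. -/
def ConStmt : Prop := ∀ (V : Type) [Fintype V] [DecidableEq V] (r : V → V → Prop) (Δ : ℕ),
  (∀ x y, r x y → r y x) → 1 ≤ Δ → (∀ x, (univ.filter fun y => r x y).card ≤ Δ) →
    ∀ Z : Finset V, ∑ Y ∈ (univ : Finset (Finset V)).filter (fun Y => Rooted r Z Y),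
      (1 / (4 * (Δ : ℝ))) ^ Y.card ≤ (1 + 1 / (2 * (Δ : ℝ))) ^ Z.card

/-- CNL. Counting labellings. Proof: for `f ∈ A` let `Y f ∈ P` be the set of blocks of the second
hypothesis and `C f ⊆ Y f` the set of the `s ∈ Y f` such that there is `x` with
`blk x = blk (n x) = s`, `x ∈ Spc n f`; so `|C f| ≤ u`. For given `Y = Y f`, `C = C f` the function
`f` is determined by the values `f s`, `s ∈ Y`, and the values `f x` for all `x` with `blk x ∈ C`:
off the blocks of `Y` it is `ρ`, and for a block `s ∈ Y \ C` the value of `f` at `(n ^ (j + 1)) s` is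
determined by the value at `(n ^ j) s` (not special: `T` and `I` alternate, `K`, `L`, `O` are
constant; use `Blk.path`). So there are at most `5^|Y| * 5^(2 L |C|)` such `f`, and at most `2^|Y|`
sets `C`. -/
def CnlStmt : Prop := ∀ (V : Type) [Fintype V] [DecidableEq V] (n : Equiv.Perm V) (L : ℕ)
  (blk : V → V), Blk n L blk → ∀ (ρ : V → Lab) (P : Finset (Finset V)) (A : Finset (V → Lab))
    (Y : (V → Lab) → Finset V) (k u : ℕ), (∀ f ∈ A, Y f ∈ P ∧ (Y f).card ≤ k ∧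
      (∀ x, blk x ∉ Y f → f x = ρ x) ∧ (Spc n f).card ≤ u) →
        A.card ≤ P.card * 10 ^ k * 25 ^ (L * u)

/-- CNT. Proof (may assume TCH, CON, CNL): on `V` let `R s t` mean that there are `x`, `y` with
`blk x = s`, `blk y = t`, `adj n m x y` or `adj n m y x` (the same, `m` is an involution); the number
of `t` with `R s t` is at most `3 * 2 L = 6 L` (if `s` is no block there is none). For `f ∈ A` the set
`Y f = (D f).image blk` is rooted for `R` and `Z.image blk`: for `S ⊆ Y f` nonempty, closed in `Y f`,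
the set `{x ∈ D f | blk x ∈ S}` is nonempty and closed in `D f`. By TCH `L |Y f| ≤ L k`. Let `P` be the
set of all `Y` with `|Y| ≤ k` rooted for `R` and `Z.image blk`. By CON with `Δ = 6 L`
`|P| (1/(24 L))^k ≤ (1 + 1/(12 L))^|Z|`. If `blk x ∉ Y f` then `x ∉ D f`, so `f x = ρ x`. CNL. -/
def CntStmt : Prop := ∀ (V : Type) [Fintype V] [DecidableEq V] (n : Equiv.Perm V) (m : V → V)
  (L : ℕ) (blk : V → V), Cub n m → 1 ≤ L → Blk n L blk → ∀ (ρ : V → Lab) (Z : Finset V)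
    (A : Finset (V → Lab)) (D : (V → Lab) → Finset V) (k u : ℕ),
    (∀ f ∈ A, (∀ x, x ∉ D f → f x = ρ x) ∧ Rooted (adj n m) Z (D f) ∧
      (D f).card + L * (Xr n (D f)).card ≤ L * k ∧ (Spc n f).card ≤ u) →
      (A.card : ℝ) ≤ (240 * (L : ℝ)) ^ k * 25 ^ (L * u) * (1 + 1 / (12 * (L : ℝ))) ^ Z.card

/-- The numerical condition. -/
def NumP (h : ℝ) (g L : ℕ) (θ ε : ℝ) : Prop := ∀ b k u z : ℕ, h * g ≤ 4 * b →
  h * L * k ≤ 32 * b + h * L → h * g * u ≤ 8 * b → h * z ≤ 8 * b + 2 →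
    (240 * (L : ℝ)) ^ k * 25 ^ (L * u) * (1 + 1 / (12 * (L : ℝ))) ^ z * θ ^ b ≤
      ε * (1 - Real.sqrt θ) * Real.sqrt θ ^ b

/-- NUM. Proof: `x = r / h ≥ 1`, `L = ⌈10^6 x^2⌉ ≤ 2 * 10^6 x^2`, `θ = 1 - 1/(4r)`, `s = √θ`,
`ℓ = - log s ≥ 1/(8r)`, `1 - s = (1 - θ)/(1 + s) ≥ 1/(8r)`. `g ≥ 10^10 x^3`. Taking logarithms we need
`k log(240 L) + L u log 25 + z/(12 L) + log(1/(ε(1-s))) ≤ b ℓ` (`θ^b = s^(2b)`), where
`k ≤ 32 b/(hL) + 1`, `u ≤ 8b/(hg)`, `z ≤ (8b+2)/h`, `b ≥ h g/4`. With `log t ≤ 4 t^(1/4)`: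
`32 log(240 L)/(h L) ≤ 32 * 16 * L^(-3/4)/h ≤ 1/(32 r)` since `L^(3/4) ≥ 31622 x^(3/2)`;
`8 L log 25/(h g) ≤ 26 * 2 * 10^6 x^2/(h * 10^10 x^3) ≤ 1/(32 r)`;
`(8b + 2)/(12 h L) ≤ 10 b/(12 h L) ≤ b/(32 r)`; and
`log(240 L) + log(48 r^3) ≤ log(240 * 2 * 10^6 * 48 * x^5) ≤ 25 + 5 log x ≤ 30 x`, while
`b/(32 r) ≥ h g/(128 r) ≥ 10^10 x^3/(128 x) ≥ 30 x`. -/
def NumStmt : Prop := ∀ (h : ℝ) (r g : ℕ), 0 < h → h ≤ 1 → 1 ≤ r →
  10 ^ 10 * (r : ℝ) ^ 3 ≤ h ^ 3 * g → ∃ L : ℕ, 1 ≤ L ∧ L ≤ g ∧ 24 ≤ h * g ∧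
    NumP h g L (1 - 1 / (4 * (r : ℝ))) (1 / (6 * (r : ℝ) ^ 2))

open Classical in
/-- SML. The sum over the local structures. Proof (may assume CNT, XR): group by `b = |Bad m f|`; only
`b` with `h g ≤ 4 b` occur. For each `b` apply CNT with `ρ = O`, `D = Ws`, `Z = {x, m x}` (`Ws f` is
connected and meets `Z` because `x ∈ Bad m f`, so it is rooted), `k = ⌈(6 b/h + 8 b L/(h g))/L⌉`,
`u = ⌊8 b/(h g)⌋` (`|Xr n (Ws f)| ≤ |Spc n f|`), and then NumP: the part of the sum is at most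
`ε (1 - √θ) √θ^b`; sum over `b`. -/
def SmlStmt : Prop := ∀ (V : Type) [Fintype V] [DecidableEq V] (n : Equiv.Perm V) (m : V → V)
  (h : ℝ) (g L : ℕ) (θ ε : ℝ) (blk : V → V), Cub n m → 0 < h → h ≤ 1 → 24 ≤ h * g → 1 ≤ L →
    L ≤ g → 0 < θ → θ < 1 → 0 ≤ ε → Blk n L blk → NumP h g L θ ε → ∀ x : V,
      ∑ f ∈ (univ : Finset (V → Lab)).filter (fun f => Lcl n m h g f ∧ x ∈ Bad m f),
        θ ^ (Bad m f).card ≤ ε

open Classical in
/-- SMG. The sum over the global structures. Proof (may assume CNT, XR, ZBD): group by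
`b = |Bad m f|` (`b0 ≤ b`, `h g ≤ 4 b`); CNT with `D = Dif ρ`, `Z = Zs n m ρ` (`h |Z| ≤ 8 b0 ≤ 8 b`),
`k = ⌈(16 b/h + 16 b L/(h g))/L⌉` (`|Xr n (Dif ρ f)| ≤ |Spc n f| + |Spc n ρ| ≤ 16 b/(h g)`),
`u = ⌊8 b/(h g)⌋`, NumP, sum over `b`. -/
def SmgStmt : Prop := ∀ (V : Type) [Fintype V] [DecidableEq V] (n : Equiv.Perm V) (m : V → V)
  (h : ℝ) (g L b0 : ℕ) (θ ε : ℝ) (blk : V → V) (ρ : V → Lab), Cub n m → 0 < h → h ≤ 1 →
    24 ≤ h * g → 1 ≤ L → L ≤ g → 0 < θ → θ < 1 → 0 ≤ ε → Blk n L blk → NumP h g L θ ε →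
    Ref n m h g b0 ρ →
      ∑ f ∈ (univ : Finset (V → Lab)).filter (fun f => Glo n m h g f ∧ b0 ≤ (Bad m f).card ∧
          Rooted (adj n m) (Zs n m ρ) (Dif ρ f) ∧ h * (Dif ρ f).card ≤ 16 * (Bad m f).card),
        θ ^ (Bad m f).card ≤ ε

/-- MAIN. Every matching has a colouring with `r` colours such that `F` together with any colour class
has a perfect matching. -/
def MainStmt : Prop := ∀ (h : ℝ) (r g : ℕ), 0 < h → h ≤ 1 → 1 ≤ r →
  10 ^ 10 * (r : ℝ) ^ 3 ≤ h ^ 3 * g → ∀ (V : Type) [Fintype V] [DecidableEq V]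
    (n : Equiv.Perm V) (m : V → V), Cub n m → Exp n m h → Gir n m g →
      ∃ c : V → Fin r, (∀ x, c (m x) = c x) ∧
        ∀ i, PMf (hadj n m (univ.filter fun x => c x = i))

/-! ### Graphs -/

/-- ORI. Proof: the matching gives `m`. The edges of `G` not in `M` form a 2-regular graph `F`. By
Hall's theorem there is an injective map `e` from `V` to the edges of `F` with `x ∈ e x` (a set `A`
of vertices is incident to at least `|A|` edges: count the pairs, `2 |A| ≤ 2 |edges|`), it is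
bijective because `F` has `|V|` edges. Let `n x` be the other end of `e x`. If `n x = n y = z`,
`x ≠ y`, then `e x`, `e y` are the two edges at `z` and `e z` is one of them, a contradiction; so `n`
is a permutation. `n (n x) = x` would give `e (n x) = e x`. Every edge of `F` is some `e x`. -/
def OriStmt : Prop := ∀ (V : Type) [Fintype V] [DecidableEq V] (G : SimpleGraph V)
  [DecidableRel G.Adj], G.IsRegularOfDegree 3 → ∀ M : G.Subgraph, M.IsPerfectMatching →
    ∃ (n : Equiv.Perm V) (m : V → V), Cub n m ∧ (∀ x y, G.Adj x y ↔ adj n m x y) ∧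
      ∀ x y, M.Adj x y ↔ y = m x

/-- IFX. Proof: for `x ∈ S` the neighbours `n x`, `n⁻¹ x`, `m x` are different, and
`#{x ∈ S | n⁻¹ x ∉ S} = #{x ∈ S | n x ∉ S}`. -/
def IfxStmt : Prop := ∀ (V : Type) [Fintype V] [DecidableEq V] (G : SimpleGraph V)
  [DecidableRel G.Adj] (n : Equiv.Perm V) (m : V → V), Cub n m →
    (∀ x y, G.Adj x y ↔ adj n m x y) → ∀ S : Finset V,
      ((S ×ˢ Sᶜ).filter fun p => G.Adj p.1 p.2).card = 2 * dF n S + dM m S

/-- GIR. Proof: the graph induced on `K` is not a forest: a component of a forest is a tree, and a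
tree with more than one vertex has a vertex of degree one (`IsTree.exists_vert_degree_one_...`). So
there is a cycle inside `K`, of length at most `|K|`. -/
def GirStmt : Prop := ∀ (V : Type) [Fintype V] [DecidableEq V] (G : SimpleGraph V)
  [DecidableRel G.Adj] (g : ℕ), (g : ℕ∞) ≤ G.egirth → ∀ K : Finset V, K.Nonempty →
    (∀ x ∈ K, 2 ≤ (K.filter fun y => G.Adj x y).card) → g ≤ K.card

/-- PET. Petersen's theorem. Proof (may assume COMP, TUT of part A or use Mathlib's theorem directly):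
`|V|` is even (sum of degrees). Let `T` be a Tutte violator. Every odd component `C` sends edges only
to `T`, `3 |C| = 2 e(C) + e(C, T)`, so `e(C, T)` is odd, and not `1`, so at least `3`. So
`3 odd ≤ e(.., T) ≤ 3 |T|`, a contradiction. -/
def PetStmt : Prop := ∀ (V : Type) [Fintype V] [DecidableEq V] (G : SimpleGraph V)
  [DecidableRel G.Adj], G.IsRegularOfDegree 3 →
    (∀ C : Finset V, Odd C.card → ((C ×ˢ Cᶜ).filter fun p => G.Adj p.1 p.2).card ≠ 1) →
      ∃ M : G.Subgraph, M.IsPerfectMatching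

/-- ODD. Proof (may assume GIR): suppose exactly one edge leaves `C`. `|V|` is even, so the complement
of `C` is odd too; let `S` be one of the two with `2 |S| ≤ |V|`. Then `h |S| ≤ 1`. Every vertex of
`S` has at least two neighbours in `S`, so `g ≤ |S|` by GIR, and `h g ≤ 1`. -/
def OddStmt : Prop := ∀ (V : Type) [Fintype V] [DecidableEq V] (G : SimpleGraph V)
  [DecidableRel G.Adj] (h : ℝ) (g : ℕ), G.IsRegularOfDegree 3 → 0 < h → 1 < h * g →
    (∀ S : Finset V, 2 * S.card ≤ Fintype.card V →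
      h * S.card ≤ ((S ×ˢ Sᶜ).filter fun p => G.Adj p.1 p.2).card) →
    (g : ℕ∞) ≤ G.egirth →
    ∀ C : Finset V, Odd C.card → ((C ×ˢ Cᶜ).filter fun p => G.Adj p.1 p.2).card ≠ 1

end Pool.Agent.Helper55.FR
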