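import Mathlib

/-!
# Fan-Raspaud in cubic expanders of large girth: definitions

A cubic simple graph together with a perfect matching is given by a permutation `n` (it runs along
the cycles of the complementary 2-factor `F`) and the involution `m` (the matching). For an
`m`-invariant set `B` of vertices `F ∪ B` is the graph of all edges of `F` and of the matching edges
inside `B`.
-/

namespace Pool.Agent.Helper55.FR

open Finset

/-- `n` runs along a 2-factor and `m` is the complementary perfect matching of a cubic graph. -/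
structure Cub {V : Type} (n : Equiv.Perm V) (m : V → V) : Prop where
  mm : ∀ v, m (m v) = v
  mv : ∀ v, m v ≠ v
  nv : ∀ v, n v ≠ v
  nn : ∀ v, n (n v) ≠ v
  nm : ∀ v, n v ≠ m v

/-- The edges of the cubic graph. -/
def adj {V : Type} (n : Equiv.Perm V) (m : V → V) (x y : V) : Prop :=
  y = n x ∨ x = n y ∨ y = m x

/-- The edges of `F ∪ B`. -/
def hadj {V : Type} (n : Equiv.Perm V) (m : V → V) (B : Finset V) (x y : V) : Prop :=
  y = n x ∨ x = n y ∨ (y = m x ∧ x ∈ B)

instance {V : Type} [DecidableEq V] (n : Equiv.Perm V) (m : V → V) (x y : V) :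
    Decidable (adj n m x y) := by unfold adj; infer_instance

instance {V : Type} [DecidableEq V] (n : Equiv.Perm V) (m : V → V) (B : Finset V) (x y : V) :
    Decidable (hadj n m B x y) := by unfold hadj; infer_instance

/-- A perfect matching inside the relation `r`, as an involution. -/
def PMf {V : Type} (r : V → V → Prop) : Prop :=
  ∃ q : V → V, (∀ x, q (q x) = x) ∧ (∀ x, q x ≠ x) ∧ ∀ x, r x (q x)

/-- `W` is connected (cut form). -/
def Con {V : Type} (r : V → V → Prop) (W : Finset V) : Prop :=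
  ∀ S ⊆ W, S.Nonempty → (∀ x ∈ S, ∀ y ∈ W, r x y → y ∈ S) → S = W

/-- Every component of `D` meets `Z` (cut form). -/
def Rooted {V : Type} (r : V → V → Prop) (Z D : Finset V) : Prop :=
  ∀ S ⊆ D, S.Nonempty → (∀ x ∈ S, ∀ y ∈ D, r x y → y ∈ S) → ∃ z ∈ S, z ∈ Z

section

variable {V : Type} [Fintype V] [DecidableEq V]

/-- Number of edges `x, n x` leaving `S` forwards. The number of edges of `F` leaving `S` is
`2 * dF n S`. -/
def dF (n : Equiv.Perm V) (S : Finset V) : ℕ := (S.filter fun x => n x ∉ S).card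

/-- Number of matching edges leaving `S`. -/
def dM (m : V → V) (S : Finset V) : ℕ := (S.filter fun x => m x ∉ S).card

/-- Edge expansion at least `h`. -/
def Exp (n : Equiv.Perm V) (m : V → V) (h : ℝ) : Prop :=
  ∀ S : Finset V, 2 * S.card ≤ Fintype.card V → h * S.card ≤ 2 * dF n S + dM m S

/-- Girth at least `g`: a nonempty set in which every vertex has two neighbours has at least `g`
elements. -/
def Gir (n : Equiv.Perm V) (m : V → V) (g : ℕ) : Prop :=
  ∀ K : Finset V, K.Nonempty → (∀ x ∈ K, 2 ≤ (K.filter fun y => adj n m x y).card) → g ≤ K.card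

end

/-! ### Labels -/

/-- Labels: `T` (barrier), `I` (singleton components), `K` and `L` (vertices of large components,
in two colours), `O` (outside). -/
inductive Lab : Type
  | T | I | K | L | O
  deriving DecidableEq, Fintype

/-- Large components. -/
def isK (a : Lab) : Prop := a = Lab.K ∨ a = Lab.L

instance (a : Lab) : Decidable (isK a) := by unfold isK; infer_instance

/-- Exchange `T` and `I`. -/
def flip : Lab → Lab
  | Lab.T => Lab.I
  | Lab.I => Lab.T
  | Lab.K => Lab.K
  | Lab.L => Lab.L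
  | Lab.O => Lab.O

/-- A pair of labels which is forbidden for an edge of `F ∪ B`. -/
def bad (a b : Lab) : Prop := a ≠ Lab.T ∧ b ≠ Lab.T ∧ (a ≠ b ∨ a = Lab.I)

instance (a b : Lab) : Decidable (bad a b) := by unfold bad; infer_instance

/-- A special pair of labels for an edge of `F`. -/
def spc (a b : Lab) : Prop :=
  ¬ ((a = Lab.T ∧ b = Lab.I) ∨ (a = Lab.I ∧ b = Lab.T) ∨ (a = b ∧ a ≠ Lab.T ∧ a ≠ Lab.I))

instance (a b : Lab) : Decidable (spc a b) := by unfold spc; infer_instance

section

variable {V : Type} [Fintype V] [DecidableEq V]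

/-- No edge of `F` is bad. -/
def Adm (n : Equiv.Perm V) (f : V → Lab) : Prop := ∀ x, ¬ bad (f x) (f (n x))

/-- The vertices of the bad matching edges. -/
def Bad (m : V → V) (f : V → Lab) : Finset V := univ.filter fun x => bad (f x) (f (m x))

/-- The special edges `x, n x` of `F`. -/
def Spc (n : Equiv.Perm V) (f : V → Lab) : Finset V := univ.filter fun x => spc (f x) (f (n x))

/-- The vertices of large components. -/
def Ks (f : V → Lab) : Finset V := univ.filter fun x => isK (f x)

/-- Everything but the outside. -/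
def Ws (f : V → Lab) : Finset V := univ.filter fun x => f x ≠ Lab.O

/-- Matching edges inside `T`. -/
def TT (m : V → V) (f : V → Lab) : Finset V := univ.filter fun x => f x = Lab.T ∧ f (m x) = Lab.T

/-- Matching edges inside `T` or inside `I`. -/
def MM (m : V → V) (f : V → Lab) : Finset V :=
  univ.filter fun x => ¬ isK (f x) ∧ f (m x) = f x

/-- Matching edges leaving the large components. -/
def MK (m : V → V) (f : V → Lab) : Finset V := univ.filter fun x => isK (f x) ∧ ¬ isK (f (m x))

/-- Local structures. -/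
structure Lcl (n : Equiv.Perm V) (m : V → V) (h : ℝ) (g : ℕ) (f : V → Lab) : Prop where
  adm : Adm n f
  con : Con (adj n m) (Ws f)
  cW : h * (Ws f).card ≤ 6 * (Bad m f).card
  cS : h * g * (Spc n f).card ≤ 8 * (Bad m f).card
  cB : h * g ≤ 4 * (Bad m f).card

/-- Global structures. -/
structure Glo (n : Equiv.Perm V) (m : V → V) (h : ℝ) (g : ℕ) (f : V → Lab) : Prop where
  noO : ∀ x, f x ≠ Lab.O
  adm : Adm n f
  cK : h * (Ks f).card ≤ 3 * (Bad m f).card
  cS : h * g * (Spc n f).card ≤ 8 * (Bad m f).card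
  cT : (TT m f).card + (MK m f).card ≤ 3 * (Bad m f).card
  cB : h * g ≤ 4 * (Bad m f).card

/-- References: the two bipartitions given by a global structure. -/
structure Ref (n : Equiv.Perm V) (m : V → V) (h : ℝ) (g b : ℕ) (ρ : V → Lab) : Prop where
  noO : ∀ x, ρ x ≠ Lab.O
  cK : h * (Ks ρ).card ≤ 3 * b
  cS : h * g * (Spc n ρ).card ≤ 8 * b
  cM : (MM m ρ).card + (MK m ρ).card ≤ 4 * b

/-- The region where `f` differs from `ρ`; the large components of `ρ` always belong to it. -/
def Dif (ρ f : V → Lab) : Finset V := univ.filter fun x => isK (ρ x) ∨ f x ≠ ρ x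

/-- The same for a barrier. -/
def DifT (ρ : V → Lab) (T I : Finset V) : Finset V :=
  univ.filter fun x => isK (ρ x) ∨ ¬ ((x ∈ T ∧ ρ x = Lab.T) ∨ (x ∈ I ∧ ρ x = Lab.I))

/-- The roots: the large components of `ρ` and the ends of the edges inside `T` or inside `I`. -/
def Zs (n : Equiv.Perm V) (m : V → V) (ρ : V → Lab) : Finset V :=
  univ.filter fun x => isK (ρ x) ∨ ρ (n x) = ρ x ∨ ρ (n.symm x) = ρ x ∨ ρ (m x) = ρ x

/-- The edges `x, n x` with exactly one end in `D`. -/
def Xr (n : Equiv.Perm V) (D : Finset V) : Finset V := univ.filter fun x => ¬ (x ∈ D ↔ n x ∈ D)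

/-! ### Barriers -/

/-- Barriers of `F ∪ B`: the set `T`, the singleton components `I`, the large components `Q`. -/
structure Pre (n : Equiv.Perm V) (m : V → V) (B : Finset V) (g : ℕ) (T I : Finset V)
    (Q : Finset (Finset V)) : Prop where
  tI : Disjoint T I
  tK : ∀ K ∈ Q, Disjoint T K
  iK : ∀ K ∈ Q, Disjoint I K
  kK : ∀ K ∈ Q, ∀ K' ∈ Q, K ≠ K' → Disjoint K K'
  cI : ∀ x ∈ I, n x ∈ T ∧ n.symm x ∈ T ∧ (x ∈ B → m x ∈ T)
  cK : ∀ K ∈ Q, ∀ x ∈ K, (n x ∈ K ∨ n x ∈ T) ∧ (n.symm x ∈ K ∨ n.symm x ∈ T) ∧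
    (x ∈ B → m x ∈ K ∨ m x ∈ T)
  odd : ∀ K ∈ Q, Odd K.card
  big : ∀ K ∈ Q, g ≤ K.card
  con : ∀ K ∈ Q, Con (hadj n m B) K

/-- Barriers of the whole graph. -/
structure Bar (n : Equiv.Perm V) (m : V → V) (B : Finset V) (g : ℕ) (T I : Finset V)
    (Q : Finset (Finset V)) : Prop where
  pre : Pre n m B g T I Q
  cov : ∀ x, x ∈ T ∨ x ∈ I ∨ ∃ K ∈ Q, x ∈ K
  sur : T.card + 2 ≤ I.card + Q.card

/-- Local barriers. -/
structure Loc (n : Equiv.Perm V) (m : V → V) (B : Finset V) (g : ℕ) (T I : Finset V)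
    (Q : Finset (Finset V)) : Prop where
  pre : Pre n m B g T I Q
  sur : T.card + 1 ≤ I.card + Q.card
  small : ∀ K ∈ Q, 2 * K.card ≤ Fintype.card V
  half : 2 * (T.card + I.card) ≤ Fintype.card V
  con : Con (hadj n m B) (T ∪ I ∪ Q.biUnion id)

/-- `f` is a labelling of the barrier. -/
structure Fit (T I : Finset V) (Q : Finset (Finset V)) (f : V → Lab) : Prop where
  fT : ∀ x, f x = Lab.T ↔ x ∈ T
  fI : ∀ x, f x = Lab.I ↔ x ∈ I
  fK : ∀ x, isK (f x) ↔ ∃ K ∈ Q, x ∈ K
  same : ∀ K ∈ Q, ∀ x ∈ K, ∀ y ∈ K, f x = f y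

/-- The vertices of all matching edges between different components, or between a component and
the outside. -/
def Full (m : V → V) (T I : Finset V) (Q : Finset (Finset V)) : Finset V :=
  univ.filter fun x => x ∉ T ∧ m x ∉ T ∧
    (x ∈ I ∨ m x ∈ I ∨ (∃ K ∈ Q, x ∈ K) ∨ ∃ K ∈ Q, m x ∈ K) ∧ ¬ ∃ K ∈ Q, x ∈ K ∧ m x ∈ K

/-- Blocks: every block `{x | blk x = s}` is a path of `F` with first vertex `s`, of between `L`
and `2 * L` vertices. -/
structure Blk (n : Equiv.Perm V) (L : ℕ) (blk : V → V) : Prop where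
  idem : ∀ v, blk (blk v) = blk v
  up : ∀ v, (univ.filter fun x => blk x = blk v).card ≤ 2 * L
  lo : ∀ v, L ≤ (univ.filter fun x => blk x = blk v).card
  path : ∀ v, ∃ i : ℕ, (n ^ i) (blk v) = v ∧ ∀ j ≤ i, blk ((n ^ j) (blk v)) = blk v

end

end Pool.Agent.Helper55.FR
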