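import Pool.Agent.Helper55.FR.GoalsA
import Pool.Agent.Helper55.FR.GoalsB

/-!
# Fan-Raspaud in cubic expanders of large girth: from the colouring to the graph
-/

namespace Pool.Agent.Helper55.FR

open Finset

/-- The final statement. -/
def FinStmt : Prop := ∀ (h : ℝ) (r g : ℕ), 0 < h → h ≤ 1 → 1 ≤ r →
  10 ^ 10 * (r : ℝ) ^ 3 ≤ h ^ 3 * g → ∀ (V : Type) [Fintype V] [DecidableEq V]
    (G : SimpleGraph V) [DecidableRel G.Adj], G.IsRegularOfDegree 3 →
    (∀ S : Finset V, 2 * S.card ≤ Fintype.card V →
      h * S.card ≤ ((S ×ˢ Sᶜ).filter fun p => G.Adj p.1 p.2).card) →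
    (g : ℕ∞) ≤ G.egirth →
      (∃ M : G.Subgraph, M.IsPerfectMatching) ∧
      ∀ M : G.Subgraph, M.IsPerfectMatching → ∃ N : Fin r → G.Subgraph,
        (∀ i, (N i).IsPerfectMatching) ∧ ∀ i j, i ≠ j → ∀ e : Sym2 V,
          ¬ (e ∈ M.edgeSet ∧ e ∈ (N i).edgeSet ∧ e ∈ (N j).edgeSet)

theorem fin (hmain : MainStmt) (hori : OriStmt) (hifx : IfxStmt) (hgir : GirStmt)
    (hpet : PetStmt) (hodd : OddStmt) : FinStmt := by
  intro h r g h0 h1 hr hg V _ _ G _ hreg hexp hgirth
  have hr0 : (1 : ℝ) ≤ (r : ℝ) := by exact_mod_cast hr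
  have hhg : 1 < h * g := by
    have h3 : h ^ 3 * g ≤ h * g := by
      have : h ^ 3 ≤ h := by
        have : h ^ 2 ≤ 1 := pow_le_one₀ h0.le h1
        nlinarith
      exact mul_le_mul_of_nonneg_right this (Nat.cast_nonneg g)
    have h4 : (1 : ℝ) ≤ (r : ℝ) ^ 3 := one_le_pow₀ hr0
    have : (10 : ℝ) ^ 10 * 1 ≤ 10 ^ 10 * (r : ℝ) ^ 3 := by
      apply mul_le_mul_of_nonneg_left h4
      positivity
    have h5 : (10 : ℝ) ^ 10 > 1 := by norm_num
    linarith
  refine ⟨hpet V G hreg (hodd V G h g hreg h0 hhg hexp hgirth), ?_⟩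
  intro M hM
  obtain ⟨n, m, hC, hadj, hMm⟩ := hori V G hreg M hM
  have hE : Exp n m h := by
    intro S hS
    have := hexp S hS
    rw [hifx V G n m hC hadj S] at this
    push_cast at this
    exact this
  have hG : Gir n m g := by
    intro K hK hdeg
    refine hgir V G g hgirth K hK ?_
    intro x hx
    have := hdeg x hx
    have he : (K.filter fun y => G.Adj x y) = (K.filter fun y => adj n m x y) := by
      apply Finset.filter_congr
      intro y _
      exact hadj x y
    rw [he]
    exact this
  obtain ⟨c, hc1, hc2⟩ := hmain h r g h0 h1 hr hg V n m hC hE hG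
  choose q hq1 hq2 hq3 using hc2
  have hadj' : ∀ i x, G.Adj x (q i x) := by
    intro i x
    rw [hadj]
    rcases hq3 i x with h | h | h
    · exact Or.inl h
    · exact Or.inr (Or.inl h)
    · exact Or.inr (Or.inr h.1)
  let N : Fin r → G.Subgraph := fun i =>
    { verts := Set.univ
      Adj := fun x y => y = q i x
      adj_sub := by
        intro x y hxy
        rw [hxy]
        exact hadj' i x
      edge_vert := by
        intro x y _
        exact Set.mem_univ x
      symm := ⟨by
        intro x y hxy
        show x = q i y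
        rw [hxy, hq1]⟩ }
  refine ⟨N, ?_, ?_⟩
  · intro i
    rw [SimpleGraph.Subgraph.isPerfectMatching_iff]
    intro v
    exact ⟨q i v, rfl, fun y hy => hy⟩
  · intro i j hij e he
    obtain ⟨heM, hei, hej⟩ := he
    induction e with
    | _ x y =>
      rw [SimpleGraph.Subgraph.mem_edgeSet] at heM hei hej
      rw [hMm] at heM
      have e1 : y = q i x := hei
      have e2 : y = q j x := hej
      have key : ∀ k, y = q k x → c x = k := by
        intro k hk
        rcases hq3 k x with h | h | h
        · exfalso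
          rw [← hk, heM] at h
          exact hC.nm x h.symm
        · exfalso
          rw [← hk, heM] at h
          have := hC.nm (m x)
          rw [hC.mm] at this
          exact this h.symm
        · simpa using h.2
      exact hij ((key i e1).symm.trans (key j e2))

end Pool.Agent.Helper55.FR
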