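import Pool.Agent.Helper55.FR.GoalsB

/-!
# FR-GCY
-/

namespace Pool.Agent.Helper55.FR

open Finset

theorem gcy : GcyStmt := by
  intro V _ _ n m g hC hG v i hi hig hv
  set K : Finset V := (range i).image (fun j => (n ^ j) v) with hK
  have hmod : ∀ j : ℕ, (n ^ j) v ∈ K := by
    intro j
    have h1 : (n ^ j) v = (n ^ (j % i)) v := by
      conv_lhs => rw [← Nat.mod_add_div j i]
      rw [pow_add, Equiv.Perm.mul_apply]
      congr 1
      rw [pow_mul]
      have : ∀ k : ℕ, ((n ^ i) ^ k) v = v := by
        intro k
        induction k with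
        | zero => simp
        | succ k ih => rw [pow_succ, Equiv.Perm.mul_apply, hv, ih]
      exact this _
    rw [h1, hK]
    exact mem_image_of_mem _ (mem_range.2 (Nat.mod_lt _ hi))
  have hne : K.Nonempty := ⟨v, by simpa using hmod 0⟩
  have hsucc : ∀ x ∈ K, n x ∈ K := by
    intro x hx
    rw [hK, mem_image] at hx
    obtain ⟨j, _, rfl⟩ := hx
    have := hmod (j + 1)
    rwa [pow_succ', Equiv.Perm.mul_apply] at this
  have hpred : ∀ x ∈ K, n.symm x ∈ K := by
    intro x hx
    have hx' := hx
    rw [hK, mem_image] at hx
    obtain ⟨j, _, rfl⟩ := hx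
    have h2 : (n ^ j) v = n ((n ^ (j + i - 1)) v) := by
      have h3 : n ((n ^ (j + i - 1)) v) = (n ^ (j + i)) v := by
        rw [← Equiv.Perm.mul_apply, ← pow_succ']
        congr 2
        omega
      rw [h3, pow_add, Equiv.Perm.mul_apply, hv]
    rw [h2, Equiv.symm_apply_apply]
    exact hmod _
  have hcard : K.card ≤ i := by
    have := card_image_le (s := range i) (f := fun j => (n ^ j) v)
    rwa [card_range] at this
  have := hG K hne (by
    intro x hx
    have hsub : ({n x, n.symm x} : Finset V) ⊆ K.filter fun y => adj n m x y := by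
      intro y hy
      simp only [mem_insert, mem_singleton] at hy
      simp only [mem_filter, adj]
      rcases hy with rfl | rfl
      · exact ⟨hsucc x hx, Or.inl rfl⟩
      · exact ⟨hpred x hx, Or.inr (Or.inl (by simp))⟩
    have hne' : n x ≠ n.symm x := by
      intro h
      apply hC.nn x
      rw [h]
      simp
    have h2 : ({n x, n.symm x} : Finset V).card = 2 := card_pair hne'
    have := card_le_card hsub
    omega)
  omega

end Pool.Agent.Helper55.FR
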