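import Pool.Agent.Helper55.FR.Defs

/-!
# Fan-Raspaud in cubic expanders of large girth: goals, part A (barriers)

Notation in the docstrings: `x ~ y` means `adj n m x y`; a set is closed if no edge of `F ∪ B`
leaves it except to `T`. For a permutation `n` and a set `S`:
`#{x ∈ S | n x ∉ S} = #{x ∉ S | n x ∈ S}` (CONS), and `#{x ∈ S | n⁻¹ x ∈ R} = #{y ∈ R | n y ∈ S}`.
Every goal of this file may be used as a hypothesis of another one where the docstring says so.
-/

namespace Pool.Agent.Helper55.FR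

open Finset

/-- The components of `r` off the set `T`. -/
structure Comps {V : Type} [DecidableEq V] (r : V → V → Prop) (T : Finset V)
    (Q : Finset (Finset V)) : Prop where
  ne : ∀ K ∈ Q, K.Nonempty
  dis : ∀ K ∈ Q, Disjoint T K
  kK : ∀ K ∈ Q, ∀ K' ∈ Q, K ≠ K' → Disjoint K K'
  cov : ∀ x, x ∉ T → ∃ K ∈ Q, x ∈ K
  cl : ∀ K ∈ Q, ∀ x ∈ K, ∀ y, r x y → y ∈ K ∨ y ∈ T
  con : ∀ K ∈ Q, Con r K

/-- COMP. Existence of the components, and two facts about them. Proof: for `x ∉ T` let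
`C x = {y | y ∉ T ∧ ReflTransGen (fun a b => r a b ∧ b ∉ T) x y}`, `Q` the set of all `C x`; `r` is
symmetric, so two such sets are equal or disjoint. Con: a nonempty `S ⊆ C x` without edges to
`C x \ S` is closed under the steps of the transitive closure (in both directions), so it is
everything. (PART) for any `Q` with `Comps r T Q` and any `S` disjoint from `T` with
`r x y → y ∈ S ∨ y ∈ T` for `x ∈ S`: every `K ∈ Q` is contained in `S` or disjoint from `S`: the set
`K ∩ S` has no edges to `K \ S`, use Con. So `S` is the disjoint union of the `K ∈ Q` contained in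
it. -/
def CompStmt : Prop := ∀ (V : Type) [Fintype V] [DecidableEq V] (r : V → V → Prop),
  (∀ x y, r x y → r y x) → (∀ T : Finset V, ∃ Q, Comps r T Q) ∧
  ∀ (T : Finset V) (Q : Finset (Finset V)), Comps r T Q → ∀ S : Finset V, Disjoint T S →
    (∀ x ∈ S, ∀ y, r x y → y ∈ S ∨ y ∈ T) → (∀ K ∈ Q, K ⊆ S ∨ Disjoint K S) ∧
    S.card = ∑ K ∈ Q.filter (fun K => K ⊆ S), K.card

/-- TUT. Tutte's theorem. Proof: Mathlib's `SimpleGraph.tutte` for the graph with edges `r x y`,
`x ≠ y`. A Tutte violator `u` gives `T`; the components of `((⊤ : Subgraph).deleteVerts u).coe`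
correspond to the members of any `Q` with `Comps r T Q` (may assume COMP): the support of a
component, mapped to `V`, is nonempty, disjoint from `T`, closed and connected, so it is a member
of `Q` by (PART) of COMP and Con. -/
def TutStmt : Prop := ∀ (V : Type) [Fintype V] [DecidableEq V] (r : V → V → Prop),
  (∀ x y, r x y → r y x) → (∀ x, ¬ r x x) → ¬ PMf r →
    ∃ (T : Finset V) (Q : Finset (Finset V)), Comps r T Q ∧
      T.card < (Q.filter fun K => Odd K.card).card

/-- BAR. Proof (may assume COMP, TUT): `r = hadj n m B` is symmetric (as `B` is invariant) and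
irreflexive. `|V|` is even (`m` has no fixed point), so `|T| ≡ odd(T) mod 2` where `odd(T)` is the
number of odd members of `Q` (`|V| = |T| + ∑ |K|`). By TUT there is `T` with `odd(T) ≥ |T| + 2`. Among
all pairs `(T, Q)` with `Comps r T Q` choose one with `odd(T) - |T|` maximal and then `|T|` maximal.
(a) All members of `Q` are odd: if `K` is even take `v ∈ K` and `T' = T ∪ {v}`, `Q'` with
`Comps r T' Q'`. The members of `Q` other than `K` are members of `Q'` (they are closed for `T'`,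
connected; use PART of COMP), and `K \ {v}` has odd cardinality and is closed for `T'`, so by PART it
contains an odd member of `Q'`. So `odd(T') ≥ odd(T) + 1`, a contradiction to the choice.
(b) Let `K ∈ Q`, `|K| ≥ 3`. Every `v ∈ K` has at least two neighbours (for `r`) in `K`: it has at
least one since `{v} ≠ K` (Con). If `u` is the only one take `T' = T ∪ {u}`: `{v}` is closed for `T'`,
and so is `K \ {u, v}`, which has odd cardinality; so `odd(T') ≥ odd(T) - 1 + 2` and `|T'| = |T| + 1`,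
a contradiction to the choice. So `g ≤ |K|` by `Gir`.
(c) Let `I` be the set of all `x` with `{x} ∈ Q` and let the new `Q` be the members with at least
three elements. -/
def BarStmt : Prop := ∀ (V : Type) [Fintype V] [DecidableEq V] (n : Equiv.Perm V) (m : V → V)
  (B : Finset V) (g : ℕ), Cub n m → (∀ x, x ∈ B ↔ m x ∈ B) → Gir n m g →
    ¬ PMf (hadj n m B) → ∃ T I Q, Bar n m B g T I Q

/-- LOCB. A barrier with a small set `T ∪ I` contains a local barrier. Proof: at most one `K ∈ Q` has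
`2 |K| > |V|`. Let `X` be the complement of it (or everything if there is none). Consider all
`S ⊆ X` such that `hadj x y`, `x ∈ S`, `y ∈ X` implies `y ∈ S`. For such `S` every `K ∈ Q` with
`K ⊆ X` is contained in `S` or disjoint from `S` (Con). Let `sur S = |I ∩ S| + #{K ∈ Q | K ⊆ S} -
|T ∩ S|`. `sur X ≥ 1`. Choose `S` with `sur S ≥ 1` and `|S|` minimal; then `T ∩ S`, `I ∩ S` and
`Q.filter (· ⊆ S)` is a local barrier. `Con (hadj n m B) S`: if `S' ⊆ S` is nonempty, `≠ S`, and has no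
edges to `S \ S'`, then `S'` and `S \ S'` are both admissible (`hadj` is symmetric since `B` is
invariant) and `sur` is additive, so one of them has `sur ≥ 1`, a contradiction. The conditions cI
and cK: a neighbour in `T` lies in `X`, so in `S`. -/
def LocbStmt : Prop := ∀ (V : Type) [Fintype V] [DecidableEq V] (n : Equiv.Perm V) (m : V → V)
  (B : Finset V) (g : ℕ) (T I : Finset V) (Q : Finset (Finset V)), Cub n m →
    (∀ x, x ∈ B ↔ m x ∈ B) → Bar n m B g T I Q → 2 * (T.card + I.card) ≤ Fintype.card V →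
      ∃ T' I' Q', Loc n m B g T' I' Q'

/-- IDF. Proof: every edge `x, n x` of `F` has the labels `TT`, `TI`, `IT`, one `T` and one of `K`, `L`,
`O`, or twice the same label from `K`, `L`, `O`. Count `T` by the label of `n x`:
`|T| = #TT + #{x ∈ T | n x ∈ I} + #{x ∈ T | n x ∉ T ∪ I}`, and by the label of `n⁻¹ x`:
`|T| = #TT + #{x ∈ I | n x ∈ T} + #{x ∉ T ∪ I | n x ∈ T}`; the second terms are both `|I|` (for the
first one: `y = n x` runs over `I`, as `n⁻¹ y ∈ T` for `y ∈ I`). -/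
def IdfStmt : Prop := ∀ (V : Type) [Fintype V] [DecidableEq V] (n : Equiv.Perm V) (m : V → V)
  (B : Finset V) (g : ℕ) (T I : Finset V) (Q : Finset (Finset V)) (f : V → Lab),
    Pre n m B g T I Q → Fit T I Q f →
      2 * T.card = 2 * I.card + (Spc n f).card + (T.filter fun x => n x ∈ T).card

/-- SKF. Proof: `dF n K = #{x ∈ K | n x ∉ K} = #{x ∉ K | n x ∈ K}` (CONS), and an edge `x, n x` with
exactly one end in `K` has its other end in `T`, so it is special; different `K` give different `x`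
(the end which is not in `T` lies in `K`). -/
def SkfStmt : Prop := ∀ (V : Type) [Fintype V] [DecidableEq V] (n : Equiv.Perm V) (m : V → V)
  (B : Finset V) (g : ℕ) (T I : Finset V) (Q : Finset (Finset V)) (f : V → Lab),
    Pre n m B g T I Q → Fit T I Q f → ∑ K ∈ Q, 2 * dF n K ≤ (Spc n f).card

/-- IDM. Proof: write `a X Y = #{x ∈ X | m x ∈ Y}` for `X`, `Y` among `T`, `I`, `K` (the union of the
members of `Q`), `O` (the rest), and `k = #{x | x ∈ K ∈ Q, m x ∈ K' ∈ Q, K ≠ K'}`; `a X Y = a Y X`.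
Then `|T| = a T T + a T I + a T K + a T O`, `|I| = a I T + a I I + a I K + a I O`,
`|Full| = a I I + 2 a I K + 2 a I O + k + 2 a K O`, `∑ dM K = a K T + a K I + k + a K O`,
and the last term is `a T O + a I O + a K O`. -/
def IdmStmt : Prop := ∀ (V : Type) [Fintype V] [DecidableEq V] (n : Equiv.Perm V) (m : V → V)
  (B : Finset V) (g : ℕ) (T I : Finset V) (Q : Finset (Finset V)), (∀ v, m (m v) = v) →
    Pre n m B g T I Q → (Full m T I Q).card + T.card = I.card + (T.filter fun x => m x ∈ T).card +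
      ∑ K ∈ Q, dM m K +
      ((T ∪ I ∪ Q.biUnion id).filter fun x => m x ∉ T ∪ I ∪ Q.biUnion id).card

/-- CUT. Proof: for `c : Finset V → Bool` let `f_c x` be `T`, `I` on `T`, `I`, `K` or `L` on `K ∈ Q`
according to `c K`, and `O` elsewhere. A vertex `x ∈ Full` is in `Bad m f_c` unless `x ∈ K`,
`m x ∈ K'` for two different members of `Q` with `c K = c K'`, and this happens for exactly half of
the `c`. So the average of `|Bad m f_c|` over all `c` is at least `|Full| / 2`. -/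
def CutStmt : Prop := ∀ (V : Type) [Fintype V] [DecidableEq V] (n : Equiv.Perm V) (m : V → V)
  (B : Finset V) (g : ℕ) (T I : Finset V) (Q : Finset (Finset V)), Pre n m B g T I Q →
    ∃ f, Fit T I Q f ∧ (Full m T I Q).card ≤ 2 * (Bad m f).card

/-- FIT. Proof: check the cases of the labels with cI, cK (for `x` with label `O` and `n x ∈ I`: then
`x = n⁻¹ (n x) ∈ T`; similarly for `K`; for `m` use that `B` is invariant and `m (m x) = x`). -/
def FitStmt : Prop := ∀ (V : Type) [Fintype V] [DecidableEq V] (n : Equiv.Perm V) (m : V → V)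
  (B : Finset V) (g : ℕ) (T I : Finset V) (Q : Finset (Finset V)) (f : V → Lab), Cub n m →
    (∀ x, x ∈ B ↔ m x ∈ B) → Pre n m B g T I Q → Fit T I Q f →
      Adm n f ∧ Disjoint (Bad m f) B

/-- LOCN. Proof (may assume IDF, SKF, IDM, CUT, FIT): let `f` be as in CUT, `b = |Bad m f|`,
`F = |Full| ≤ 2 b`, `p = |Q|`, `s = |Spc n f|`, `φ = |T| - |I|`, so `φ ≤ p - 1`. IDF: `s ≤ 2 φ`; so
`φ ≥ 0` and `p ≥ 1`. IDM: `∑ dM K + out ≤ F + φ`, where `out` is its last term. For `K ∈ Q`
`h g ≤ h |K| ≤ 2 dF K + dM K`; with SKF `h ∑ |K| ≤ s + F + φ ≤ F + 3 φ ≤ F + 3 p` and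
`h g p ≤ F + 3 p`, so `h g p ≤ (8/7) F` as `24 ≤ h g`. So `h g ≤ 2 F ≤ 4 b` (cB),
`h g s ≤ 2 h g p ≤ (16/7) F ≤ 8 b` (cS), `h ∑ |K| ≤ F + 3 p ≤ (8/7) F ≤ 3 b`.
For `S = T ∪ I` (`2 |S| ≤ |V|`): `2 dF S = #{x | exactly one of x, n x in S} ≤ s` (such an edge is
special) and `dM S ≤ ∑ dM K + out`, so `h |S| ≤ s + F + φ ≤ 3 b`. Together cW. `Con (adj n m)`
from `Con (hadj n m B)` as `Ws f = T ∪ I ∪ Q.biUnion id`. -/
def LocnStmt : Prop := ∀ (V : Type) [Fintype V] [DecidableEq V] (n : Equiv.Perm V) (m : V → V)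
  (h : ℝ) (g : ℕ) (B T I : Finset V) (Q : Finset (Finset V)), Cub n m → 0 < h → h ≤ 1 →
    24 ≤ h * g → Exp n m h → (∀ x, x ∈ B ↔ m x ∈ B) → Loc n m B g T I Q →
      ∃ f, Lcl n m h g f ∧ Disjoint (Bad m f) B

/-- GLON. Proof (may assume IDF, SKF, IDM, CUT, FIT): as LOCN; now `φ ≤ p - 2`, and `2 |K| ≤ |V|` for
all `K ∈ Q` because `K` is disjoint from `T ∪ I`. cK, cS, cB as in LOCN. cT:
`|TT| = #{x ∈ T | m x ∈ T}`, `|MK| ≤ ∑ dM K`, so by IDM `|TT| + |MK| ≤ F + φ ≤ F + p ≤ 3 b`. -/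
def GlonStmt : Prop := ∀ (V : Type) [Fintype V] [DecidableEq V] (n : Equiv.Perm V) (m : V → V)
  (h : ℝ) (g : ℕ) (B T I : Finset V) (Q : Finset (Finset V)), Cub n m → 0 < h → h ≤ 1 →
    24 ≤ h * g → Exp n m h → (∀ x, x ∈ B ↔ m x ∈ B) → Bar n m B g T I Q →
      Fintype.card V < 2 * (T.card + I.card) →
        ∃ f, Fit T I Q f ∧ Glo n m h g f ∧ Disjoint (Bad m f) B

/-- UNS. Undoing a part `S` of the difference region which has no roots does not decrease the
surplus. Proof: (1) for `x ∈ S` all neighbours `y ~ x` have `ρ y ∈ {T, I}` and `ρ y ≠ ρ x`: if `ρ y`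
were `K` or `L` then `y ∈ DifT`, so `y ∈ S`, but `y` is a root. (2) every `K ∈ Q` with `K ∩ S ≠ ∅` is
contained in `S` (Con; `K ⊆ DifT` since the vertices of `K` are not in `T` or `I`). (3) on `S`:
`x ∈ T` has `ρ x = I`, `x ∈ I` has `ρ x = T`. (4) let `w x = 2` on `T ∩ S`, `-2` on `I ∩ S`; for
`x ∈ K ⊆ S`, `K ∈ Q`, `w x = 1` if `ρ x = I` and `-1` if `ρ x = T`; `w x = 0` off `S`. Then
`∑ w x = ∑ (w x + w (n x)) / 2`. For each edge `x, n x` of `F` the sum `w x + w (n x)` is `≥ 0`: both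
off `S`: 0; one end in `I ∩ S`: the other end is in `T` and has `ρ = I` by (1), so it is in `DifT` and
in `S`, the sum is 0; both in the same `K`: 0 by (1); one in `K ⊆ S` and the other not in `K`: the
other is in `T`; either in `S` (then it has `ρ = I`, `w = 2`, and the end in `K` has `ρ = T`,
`w = -1`): sum 1; or off `S`, then it is not in `DifT`, `ρ = T`, the end in `K` has `ρ = I`: sum 1;
one in `T ∩ S` and the other off `S` or in `T ∩ S` (excluded by (1)): `≥ 0`. So
`∑ w ≥ (1/2) ∑_{K ⊆ S} #{x | exactly one of x, n x in K} = ∑_{K ⊆ S} dF K`. (5) `dF K ≥ 1`: otherwise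
`n` maps `K` to itself and exchanges `{ρ = T}` and `{ρ = I}`, but `|K|` is odd. (6) So
`2 |T ∩ S| - 2 |I ∩ S| + ∑_{K ⊆ S} (#{x ∈ K | ρ x = I} - #{x ∈ K | ρ x = T}) ≥ #{K ⊆ S}`. Since
`S` is the disjoint union of `T ∩ S`, `I ∩ S` and the `K ⊆ S`, by (3) this is the claim. -/
def UnsStmt : Prop := ∀ (V : Type) [Fintype V] [DecidableEq V] (n : Equiv.Perm V) (m : V → V)
  (B : Finset V) (g : ℕ) (T I : Finset V) (Q : Finset (Finset V)) (ρ : V → Lab) (S : Finset V),
    Cub n m → (∀ x, x ∈ B ↔ m x ∈ B) → Bar n m B g T I Q → (∀ x, ρ x ≠ Lab.O) →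
    S ⊆ DifT ρ T I → (∀ x ∈ S, ∀ y ∈ DifT ρ T I, adj n m x y → y ∈ S) →
    Disjoint S (Zs n m ρ) →
      (I ∩ S).card + (Q.filter fun K => K ⊆ S).card + (S.filter fun x => ρ x = Lab.T).card ≤
        (T ∩ S).card + (S.filter fun x => ρ x = Lab.I).card

/-- UNB. Undoing. Proof (may assume UNS): with (1), (2), (3) of UNS. The three parts are disjoint and
cover everything. cI: for `x ∈ I \ S` and a neighbour `y ∈ T` (for `hadj`): if `y ∈ S` then
`ρ y = I`, so `ρ x = T` by (1), `x ∈ DifT`, so `x ∈ S`, a contradiction; so `y ∈ T \ S`. For `x ∈ S`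
with `ρ x = I` every neighbour `y ~ x` has `ρ y = T`; if `y ∈ S` it is in the new `T`, otherwise
`y ∉ DifT`, so `y ∈ T \ S`. cK: for `x ∈ K`, `K ∩ S = ∅`, a neighbour `y ∈ T` is not in `S`, since
otherwise `x ∈ DifT` would be in `S`. The surplus: UNS. The difference region: a vertex of `S` has
now the label of `ρ`. -/
def UnbStmt : Prop := ∀ (V : Type) [Fintype V] [DecidableEq V] (n : Equiv.Perm V) (m : V → V)
  (B : Finset V) (g : ℕ) (T I : Finset V) (Q : Finset (Finset V)) (ρ : V → Lab) (S : Finset V),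
    Cub n m → (∀ x, x ∈ B ↔ m x ∈ B) → Bar n m B g T I Q → (∀ x, ρ x ≠ Lab.O) →
    S ⊆ DifT ρ T I → (∀ x ∈ S, ∀ y ∈ DifT ρ T I, adj n m x y → y ∈ S) →
    Disjoint S (Zs n m ρ) →
      Bar n m B g ((T \ S) ∪ S.filter fun x => ρ x = Lab.T)
        ((I \ S) ∪ S.filter fun x => ρ x = Lab.I) (Q.filter fun K => Disjoint K S) ∧
      DifT ρ ((T \ S) ∪ S.filter fun x => ρ x = Lab.T)
        ((I \ S) ∪ S.filter fun x => ρ x = Lab.I) = DifT ρ T I \ S

/-- REF. Proof: `isK`, `spc` and the equality of two labels are invariant under `flip`.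
`|MM| ≤ |TT| + |Bad|` (the edges inside `I` are bad). -/
def RefStmt : Prop := ∀ (V : Type) [Fintype V] [DecidableEq V] (n : Equiv.Perm V) (m : V → V)
  (h : ℝ) (g : ℕ) (f : V → Lab), Glo n m h g f →
    Ref n m h g (Bad m f).card f ∧ Ref n m h g (Bad m f).card (flip ∘ f)

/-- ZBD. Proof: `|Zs| ≤ |Ks| + 2 |Spc| + |MM|`: if `ρ x` is `T` or `I` and `ρ (n x) = ρ x` then
`x ∈ Spc`; if `ρ (n⁻¹ x) = ρ x` then `n⁻¹ x ∈ Spc`. And `h |Ks| ≤ 3 b`, `2 h |Spc| ≤ 16 b / g ≤ b` as
`g ≥ h g ≥ 24`, `h |MM| ≤ 4 b`. -/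
def ZbdStmt : Prop := ∀ (V : Type) [Fintype V] [DecidableEq V] (n : Equiv.Perm V) (m : V → V)
  (h : ℝ) (g b : ℕ) (ρ : V → Lab), 0 < h → h ≤ 1 → 24 ≤ h * g → Ref n m h g b ρ →
    h * (Zs n m ρ).card ≤ 8 * b

/-- XR. Proof: (1) a pair of labels with exactly one `O` is special. (2) let exactly one of `x`, `n x`
be in `Dif ρ f`; say `x` (the other case is symmetric, `spc` is symmetric). Then
`f (n x) = ρ (n x) ∈ {T, I}`. If `ρ x` is `K` or `L` then `x ∈ Spc n ρ`. Otherwise `f x ≠ ρ x`; if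
neither pair were special, `f x` and `ρ x` would both be the label in `{T, I}` different from
`f (n x)`. -/
def XrStmt : Prop := ∀ (V : Type) [Fintype V] [DecidableEq V] (n : Equiv.Perm V) (f : V → Lab),
  Xr n (Ws f) ⊆ Spc n f ∧ ∀ ρ : V → Lab, (∀ x, ρ x ≠ Lab.O) → (∀ x, f x ≠ Lab.O) →
    Xr n (Dif ρ f) ⊆ Spc n f ∪ Spc n ρ

/-- DIF. Proof (may assume nothing): let `b' = |Bad m f|`, `M = {x | f x, ρ x ∈ {T, I}, f x ≠ ρ x}`,
`M'` the same with `f x = ρ x`; one of them, call it `M` (the proof is symmetric, `flip` exchanges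
them), has `2 |M| ≤ |V|`. `Dif = Ks ρ ∪ Ks f ∪ M`, `h |Ks ρ| ≤ 3 b ≤ 3 b'`, `h |Ks f| ≤ 3 b'`.
`2 dF M = #{x | exactly one of x, n x in M} ≤ |Spc n f| + |Spc n ρ|` (as in XR), and
`dM M ≤ |MK m ρ| + |MK m f| + |MM m f| + |MM m ρ|`: for `x ∈ M`, `m x ∉ M`: either `ρ (m x)` is
large (count `m x` in `MK m ρ`), or `f (m x)` is (count `m x` in `MK m f`), or
`f (m x) = ρ (m x) ∈ {T, I}` and then `f x` or `ρ x` is equal to it. `|MM m f| ≤ |TT m f| +
|Bad m f|`, so the sum is at most `4 b + 4 b'`. So `h |M| ≤ 16 b' / (h g) + 8 b' ≤ 9 b'`. -/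
def DifStmt : Prop := ∀ (V : Type) [Fintype V] [DecidableEq V] (n : Equiv.Perm V) (m : V → V)
  (h : ℝ) (g b : ℕ) (f ρ : V → Lab), Cub n m → 0 < h → h ≤ 1 → 24 ≤ h * g → Exp n m h →
    Glo n m h g f → Ref n m h g b ρ → b ≤ (Bad m f).card →
      h * (Dif ρ f).card ≤ 16 * (Bad m f).card ∨ h * (Dif (flip ∘ ρ) f).card ≤ 16 * (Bad m f).card

/-- GEX. Proof (may assume UNB, GLON, REF, DIF): among all `(T, I, Q)` with `Bar n m B g T I Q` and
`ρ ∈ {f0, flip ∘ f0}` choose one with `|DifT ρ T I|` minimal. Then every nonempty `S ⊆ DifT ρ T I`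
without edges to the rest of `DifT ρ T I` meets `Zs n m ρ`: otherwise UNB gives a smaller one. Let
`f` be as in GLON. As `f` fits, `Dif ρ f = DifT ρ T I`, and the same for `flip ∘ ρ`
(`flip (flip a) = a`). DIF with `b = |Bad m f0| ≤ |Bad m f|`; by minimality
`|Dif ρ f| ≤ |Dif (flip ∘ ρ) f|`, so the bound holds for `ρ`. -/
def GexStmt : Prop := ∀ (V : Type) [Fintype V] [DecidableEq V] (n : Equiv.Perm V) (m : V → V)
  (h : ℝ) (g : ℕ) (f0 : V → Lab) (B : Finset V), Cub n m → 0 < h → h ≤ 1 → 24 ≤ h * g →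
    Exp n m h → Glo n m h g f0 → (∀ f, Glo n m h g f → (Bad m f0).card ≤ (Bad m f).card) →
    (∀ x, x ∈ B ↔ m x ∈ B) → (∃ T I Q, Bar n m B g T I Q) →
    (∀ T I Q, Bar n m B g T I Q → Fintype.card V < 2 * (T.card + I.card)) →
      ∃ f ρ, (ρ = f0 ∨ ρ = flip ∘ f0) ∧ Glo n m h g f ∧ Disjoint (Bad m f) B ∧
        Rooted (adj n m) (Zs n m ρ) (Dif ρ f) ∧ h * (Dif ρ f).card ≤ 16 * (Bad m f).card

end Pool.Agent.Helper55.FR
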