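import Pool.Agent.Helper55.FR.GoalsA
import Pool.Agent.Helper55.FR.GoalsB

/-!
# Fan-Raspaud in cubic expanders of large girth: the colouring of the matching
-/

namespace Pool.Agent.Helper55.FR

open Finset

theorem bad_symm {a b : Lab} (h : bad a b) : bad b a := by
  obtain ⟨h1, h2, h3⟩ := h
  refine ⟨h2, h1, ?_⟩
  rcases h3 with h3 | h3
  · exact Or.inl (Ne.symm h3)
  · by_cases hb : b = Lab.I
    · exact Or.inr hb
    · exact Or.inl (fun h => hb (h.trans h3))

theorem flip_flip_comp {V : Type} (f : V → Lab) : flip ∘ (flip ∘ f) = f := by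
  ext x
  simp only [Function.comp]
  cases f x <;> rfl

open Classical in
theorem main (hbar : BarStmt) (hlocb : LocbStmt) (hlocn : LocnStmt) (hglon : GlonStmt)
    (hgex : GexStmt) (href : RefStmt) (hgcy : GcyStmt) (hblks : BlksStmt) (hnum : NumStmt)
    (hsml : SmlStmt) (hsmg : SmgStmt) (hprb : PrbStmt) : MainStmt := by
  intro h r g h0 h1 hr hg V _ _ n m hC hE hG
  obtain ⟨L, hL1, hLg, hhg, hN⟩ := hnum h r g h0 h1 hr hg
  obtain ⟨blk, hblk⟩ := hblks V n L hL1 (fun v i hi hiL => hgcy V n m g hC hG v i hi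
    (lt_of_lt_of_le hiL hLg))
  have hr0 : (1 : ℝ) ≤ (r : ℝ) := by exact_mod_cast hr
  set θ : ℝ := 1 - 1 / (4 * (r : ℝ)) with hθ
  set ε : ℝ := 1 / (6 * (r : ℝ) ^ 2) with hε
  have hθ0 : 0 < θ := by
    have : 1 / (4 * (r : ℝ)) ≤ 1 / 4 := by
      apply one_div_le_one_div_of_le
      · norm_num
      · linarith
    rw [hθ]
    linarith
  have hθ1 : θ < 1 := by
    have : 0 < 1 / (4 * (r : ℝ)) := by positivity
    rw [hθ]
    linarith
  have hε0 : 0 ≤ ε := by
    rw [hε]
    positivity
  have hpos : ∀ f : V → Lab, h * g ≤ 4 * (Bad m f).card → (Bad m f).Nonempty := by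
    intro f hf
    rw [← Finset.card_pos]
    have : (0 : ℝ) < (Bad m f).card := by linarith
    exact_mod_cast this
  have hinv : ∀ f : V → Lab, ∀ x ∈ Bad m f, m x ∈ Bad m f := by
    intro f x hx
    simp only [Bad, mem_filter, mem_univ, true_and] at hx ⊢
    rw [hC.mm]
    exact bad_symm hx
  -- the local family
  set A1 : Finset (V → Lab) := univ.filter (fun f => Lcl n m h g f) with hA1
  -- the global family
  obtain ⟨A2, hA2a, hA2b, hA2c⟩ : ∃ A2 : Finset (V → Lab),
      (∀ f ∈ A2, h * g ≤ 4 * (Bad m f).card) ∧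
      (∑ f ∈ A2, θ ^ (Bad m f).card ≤ 2 * ε) ∧
      (∀ B : Finset V, (∀ x, x ∈ B ↔ m x ∈ B) → (∃ T I Q, Bar n m B g T I Q) →
        (∀ T I Q, Bar n m B g T I Q → Fintype.card V < 2 * (T.card + I.card)) →
        ∃ f ∈ A2, Disjoint (Bad m f) B) := by
    by_cases hex : ∃ f : V → Lab, Glo n m h g f
    · -- a best global structure
      obtain ⟨f0, hf0, hmin⟩ : ∃ f0 : V → Lab, Glo n m h g f0 ∧
          ∀ f, Glo n m h g f → (Bad m f0).card ≤ (Bad m f).card := by
        obtain ⟨f1, hf1⟩ := hex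
        have hne : (univ.filter (fun f : V → Lab => Glo n m h g f)).Nonempty :=
          ⟨f1, by simp [hf1]⟩
        obtain ⟨f0, hf0, hmin⟩ := Finset.exists_min_image _ (fun f => (Bad m f).card) hne
        refine ⟨f0, (by simpa using hf0), ?_⟩
        intro f hf
        exact hmin f (by simp [hf])
      set P : (V → Lab) → (V → Lab) → Prop := fun ρ f => Glo n m h g f ∧
        (Bad m f0).card ≤ (Bad m f).card ∧ Rooted (adj n m) (Zs n m ρ) (Dif ρ f) ∧
        h * (Dif ρ f).card ≤ 16 * (Bad m f).card with hP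
      have hs1 := hsmg V n m h g L (Bad m f0).card θ ε blk f0 hC h0 h1 hhg hL1 hLg hθ0 hθ1 hε0
        hblk hN (href V n m h g f0 hf0).1
      have hs2 := hsmg V n m h g L (Bad m f0).card θ ε blk (flip ∘ f0) hC h0 h1 hhg hL1 hLg hθ0
        hθ1 hε0 hblk hN (href V n m h g f0 hf0).2
      refine ⟨univ.filter (fun f => P f0 f) ∪ univ.filter (fun f => P (flip ∘ f0) f), ?_, ?_, ?_⟩
      · intro f hf
        simp only [mem_union, mem_filter, mem_univ, true_and] at hf
        rcases hf with hf | hf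
        · exact hf.1.cB
        · exact hf.1.cB
      · have hle : ∑ f ∈ univ.filter (fun f => P f0 f) ∪ univ.filter (fun f => P (flip ∘ f0) f),
            θ ^ (Bad m f).card ≤ ∑ f ∈ univ.filter (fun f => P f0 f), θ ^ (Bad m f).card +
              ∑ f ∈ univ.filter (fun f => P (flip ∘ f0) f), θ ^ (Bad m f).card := by
          rw [← Finset.sum_union_inter]
          have : 0 ≤ ∑ f ∈ univ.filter (fun f => P f0 f) ∩ univ.filter
              (fun f => P (flip ∘ f0) f), θ ^ (Bad m f).card :=
            Finset.sum_nonneg (fun f _ => by positivity)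
          linarith
        have e1 : ∑ f ∈ univ.filter (fun f => P f0 f), θ ^ (Bad m f).card ≤ ε := by
          convert hs1 using 3
        have e2 : ∑ f ∈ univ.filter (fun f => P (flip ∘ f0) f), θ ^ (Bad m f).card ≤ ε := by
          convert hs2 using 3
        linarith
      · intro B hB hB1 hB2
        obtain ⟨f, ρ, hρ, hf1, hf2, hf3, hf4⟩ := hgex V n m h g f0 B hC h0 h1 hhg hE hf0 hmin hB
          hB1 hB2
        refine ⟨f, ?_, hf2⟩
        simp only [mem_union, mem_filter, mem_univ, true_and]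
        rcases hρ with rfl | rfl
        · exact Or.inl ⟨hf1, hmin f hf1, hf3, hf4⟩
        · exact Or.inr ⟨hf1, hmin f hf1, hf3, hf4⟩
    · refine ⟨∅, by simp, ?_, ?_⟩
      · simp only [Finset.sum_empty]
        linarith
      · intro B hB hB1 hB2
        obtain ⟨T, I, Q, hQ⟩ := hB1
        obtain ⟨f, _, hf, _⟩ := hglon V n m h g B T I Q hC h0 h1 hhg hE hB hQ (hB2 T I Q hQ)
        exact absurd ⟨f, hf⟩ hex
  -- the colouring
  obtain ⟨c, hc1, hc2⟩ := hprb V m hC.mm hC.mv r hr ((A1 ∪ A2).image (fun f => Bad m f)) (by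
      intro u hu
      simp only [mem_image, mem_union] at hu
      obtain ⟨f, hf, rfl⟩ := hu
      refine ⟨hpos f ?_, hinv f⟩
      rcases hf with hf | hf
      · rw [hA1] at hf
        simp only [mem_filter, mem_univ, true_and] at hf
        exact hf.cB
      · exact hA2a f hf) (by
      intro x
      have hle : ∑ u ∈ ((A1 ∪ A2).image (fun f => Bad m f)).filter (fun u => x ∈ u), θ ^ u.card ≤
          ∑ f ∈ (A1 ∪ A2).filter (fun f => x ∈ Bad m f), θ ^ (Bad m f).card := by
        have himg : ((A1 ∪ A2).image (fun f => Bad m f)).filter (fun u => x ∈ u) =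
            ((A1 ∪ A2).filter (fun f => x ∈ Bad m f)).image (fun f => Bad m f) := by
          ext u
          simp only [mem_filter, mem_image]
          constructor
          · rintro ⟨⟨f, hf, rfl⟩, hx⟩
            exact ⟨f, ⟨hf, hx⟩, rfl⟩
          · rintro ⟨f, ⟨hf, hx⟩, rfl⟩
            exact ⟨⟨f, hf, rfl⟩, hx⟩
        rw [himg]
        refine Finset.sum_image_le_of_nonneg ?_
        · intro f _
          positivity
      have hsub : ∑ f ∈ (A1 ∪ A2).filter (fun f => x ∈ Bad m f), θ ^ (Bad m f).card ≤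
          ∑ f ∈ A1.filter (fun f => x ∈ Bad m f), θ ^ (Bad m f).card +
            ∑ f ∈ A2, θ ^ (Bad m f).card := by
        have h1' : ∑ f ∈ (A1 ∪ A2).filter (fun f => x ∈ Bad m f), θ ^ (Bad m f).card ≤
            ∑ f ∈ (A1.filter (fun f => x ∈ Bad m f)) ∪ A2, θ ^ (Bad m f).card := by
          apply Finset.sum_le_sum_of_subset_of_nonneg
          · intro f hf
            simp only [mem_filter, mem_union] at hf ⊢
            rcases hf with ⟨hf | hf, hx⟩
            · exact Or.inl ⟨hf, hx⟩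
            · exact Or.inr hf
          · intro f _ _
            positivity
        have h2' : ∑ f ∈ (A1.filter (fun f => x ∈ Bad m f)) ∪ A2, θ ^ (Bad m f).card ≤
            ∑ f ∈ A1.filter (fun f => x ∈ Bad m f), θ ^ (Bad m f).card +
              ∑ f ∈ A2, θ ^ (Bad m f).card := by
          rw [← Finset.sum_union_inter]
          have : 0 ≤ ∑ f ∈ (A1.filter (fun f => x ∈ Bad m f)) ∩ A2, θ ^ (Bad m f).card :=
            Finset.sum_nonneg (fun f _ => by positivity)
          linarith
        exact h1'.trans h2'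
      have hloc : ∑ f ∈ A1.filter (fun f => x ∈ Bad m f), θ ^ (Bad m f).card ≤ ε := by
        have := hsml V n m h g L θ ε blk hC h0 h1 hhg hL1 hLg hθ0 hθ1 hε0 hblk hN x
        rw [hA1, Finset.filter_filter]
        convert this using 3
      have hfin : 3 * ε = 1 / (2 * (r : ℝ) ^ 2) := by
        rw [hε]
        field_simp
        norm_num
      linarith)
  refine ⟨c, hc1, ?_⟩
  intro i
  by_contra hno
  set B : Finset V := univ.filter fun x => c x = i with hB
  have hBinv : ∀ x, x ∈ B ↔ m x ∈ B := by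
    intro x
    simp [hB, hc1]
  have key : ∃ f ∈ A1 ∪ A2, Disjoint (Bad m f) B := by
    have hbarB := hbar V n m B g hC hBinv hG hno
    by_cases hall : ∀ T I Q, Bar n m B g T I Q → Fintype.card V < 2 * (T.card + I.card)
    · obtain ⟨f, hf, hd⟩ := hA2c B hBinv hbarB hall
      exact ⟨f, mem_union_right _ hf, hd⟩
    · push Not at hall
      obtain ⟨T, I, Q, hQ, hle⟩ := hall
      obtain ⟨T', I', Q', hQ'⟩ := hlocb V n m B g T I Q hC hBinv hQ hle
      obtain ⟨f, hf, hd⟩ := hlocn V n m h g B T' I' Q' hC h0 h1 hhg hE hBinv hQ'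
      exact ⟨f, mem_union_left _ (by rw [hA1]; simp [hf]), hd⟩
  obtain ⟨f, hf, hd⟩ := key
  obtain ⟨x, hx1, hx2⟩ := hc2 (Bad m f) (mem_image_of_mem _ hf) i
  exact (Finset.disjoint_left.1 hd hx1) (by simp [hB, hx2])

end Pool.Agent.Helper55.FR
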