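import Pool.Agent.Helper55.FR.GoalsA

/-!
# FR-UNS
-/

namespace Pool.Agent.Helper55.FR

open Finset

theorem two_val {a : Lab} (h1 : ¬ isK a) (h2 : a ≠ Lab.O) : a = Lab.T ∨ a = Lab.I := by
  revert h1 h2
  cases a <;> simp [isK]

theorem uns : UnsStmt := by
  intro V _ _ n m B g T I Q ρ S hC hB hbar hρ hSD hcl hZ
  have hP := hbar.pre
  have hS : ∀ x ∈ S, ¬ isK (ρ x) ∧ ρ (n x) ≠ ρ x ∧ ρ (n.symm x) ≠ ρ x ∧ ρ (m x) ≠ ρ x := by
    intro x hx
    have := Finset.disjoint_left.1 hZ hx
    simpa [Zs, not_or] using this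
  have hD : ∀ y, isK (ρ y) → y ∈ DifT ρ T I := by
    intro y hy
    simp [DifT, hy]
  have hopp : ∀ x ∈ S, ∀ y, adj n m x y → ρ y ≠ ρ x := by
    intro x hx y hxy
    rcases hxy with h | h | h
    · rw [h]; exact (hS x hx).2.1
    · have : y = n.symm x := by rw [h]; simp
      rw [this]; exact (hS x hx).2.2.1
    · rw [h]; exact (hS x hx).2.2.2
  have hval : ∀ x ∈ S, ρ x = Lab.T ∨ ρ x = Lab.I := fun x hx => two_val (hS x hx).1 (hρ x)
  have hST : ∀ x ∈ S, x ∈ T → ρ x = Lab.I := by
    intro x hx hxT
    have := hSD hx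
    simp only [DifT, mem_filter, mem_univ, true_and] at this
    rcases this with h | h
    · exact absurd h (hS x hx).1
    · rcases hval x hx with h' | h'
      · exact absurd (Or.inl ⟨hxT, h'⟩) h
      · exact h'
  have hSI : ∀ x ∈ S, x ∈ I → ρ x = Lab.T := by
    intro x hx hxI
    have := hSD hx
    simp only [DifT, mem_filter, mem_univ, true_and] at this
    rcases this with h | h
    · exact absurd h (hS x hx).1
    · rcases hval x hx with h' | h'
      · exact h'
      · exact absurd (Or.inr ⟨hxI, h'⟩) h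
  have hoff : ∀ x ∈ S, ∀ y, adj n m x y → y ∉ S → (y ∈ T ∧ ρ y = Lab.T) ∨ (y ∈ I ∧ ρ y = Lab.I) := by
    intro x hx y hxy hy
    by_contra hcon
    apply hy
    apply hcl x hx y _ hxy
    simp only [DifT, mem_filter, mem_univ, true_and]
    exact Or.inr hcon
  have hKT : ∀ K ∈ Q, ∀ x ∈ K, x ∉ T := fun K hK x hx hxT =>
    Finset.disjoint_left.1 (hP.tK K hK) hxT hx
  have hKI : ∀ K ∈ Q, ∀ x ∈ K, x ∉ I := fun K hK x hx hxI =>
    Finset.disjoint_left.1 (hP.iK K hK) hxI hx
  have hTI : ∀ x ∈ T, x ∉ I := fun x hx hx' => Finset.disjoint_left.1 hP.tI hx hx'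
  have hKD : ∀ K ∈ Q, ∀ x ∈ K, x ∈ DifT ρ T I := by
    intro K hK x hx
    simp [DifT, hKT K hK x hx, hKI K hK x hx]
  have hKS : ∀ K ∈ Q, ∀ x ∈ K, x ∈ S → K ⊆ S := by
    intro K hK x hx hxS
    have := hP.con K hK (K ∩ S) inter_subset_left ⟨x, mem_inter.2 ⟨hx, hxS⟩⟩ (by
      intro a ha b hb hab
      rw [mem_inter] at ha ⊢
      refine ⟨hb, hcl a ha.2 b (hKD K hK b hb) ?_⟩
      rcases hab with h | h | h
      · exact Or.inl h
      · exact Or.inr (Or.inl h)
      · exact Or.inr (Or.inr h.1))
    rw [← this]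
    exact inter_subset_right
  -- the weight
  set w : V → ℤ := fun x => if x ∈ S then ((if x ∈ T then 1 else 0) - (if x ∈ I then 1 else 0) +
    (if ρ x = Lab.I then 1 else 0) - (if ρ x = Lab.T then 1 else 0)) else 0 with hw
  have hw0 : ∀ x, x ∉ S → w x = 0 := fun x hx => by simp [hw, hx]
  have htri : ∀ x ∈ S, (x ∈ T ∧ ρ x = Lab.I ∧ w x = 2) ∨ (x ∈ I ∧ x ∉ T ∧ ρ x = Lab.T ∧ w x = -2) ∨
      (x ∉ T ∧ x ∉ I ∧ (∃ K ∈ Q, x ∈ K) ∧ ((ρ x = Lab.I ∧ w x = 1) ∨ (ρ x = Lab.T ∧ w x = -1))) := by
    intro x hx
    rcases hbar.cov x with h | h | h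
    · left
      have h1 := hST x hx h
      refine ⟨h, h1, ?_⟩
      simp [hw, hx, h, hTI x h, h1]
    · right; left
      have h1 := hSI x hx h
      have h2 : x ∉ T := fun h' => hTI x h' h
      refine ⟨h, h2, h1, ?_⟩
      simp [hw, hx, h, h2, h1]
    · right; right
      obtain ⟨K, hK, hxK⟩ := h
      have h1 := hKT K hK x hxK
      have h2 := hKI K hK x hxK
      refine ⟨h1, h2, ⟨K, hK, hxK⟩, ?_⟩
      rcases hval x hx with h3 | h3
      · right
        refine ⟨h3, ?_⟩
        simp [hw, hx, h1, h2, h3]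
      · left
        refine ⟨h3, ?_⟩
        simp [hw, hx, h1, h2, h3]
  -- neighbours along F
  have hFI : ∀ x y, (y = n x ∨ x = n y) → x ∈ I → y ∈ T := by
    intro x y hxy hx
    rcases hxy with h | h
    · rw [h]; exact (hP.cI x hx).1
    · have : y = n.symm x := by rw [h]; simp
      rw [this]; exact (hP.cI x hx).2.1
  have hFK : ∀ K ∈ Q, ∀ x y, (y = n x ∨ x = n y) → x ∈ K → y ∈ K ∨ y ∈ T := by
    intro K hK x y hxy hx
    rcases hxy with h | h
    · rw [h]; exact (hP.cK K hK x hx).1
    · have : y = n.symm x := by rw [h]; simp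
      rw [this]; exact (hP.cK K hK x hx).2.1
  have hFadj : ∀ x y, (y = n x ∨ x = n y) → adj n m x y := by
    intro x y hxy
    rcases hxy with h | h
    · exact Or.inl h
    · exact Or.inr (Or.inl h)
  have hFs : ∀ x y : V, (y = n x ∨ x = n y) → (x = n y ∨ y = n x) := fun x y h => h.symm
  -- (ii)
  have hii : ∀ K ∈ Q, K ⊆ S → ∀ x y, (y = n x ∨ x = n y) → x ∈ K → y ∉ K → w x + w y = 1 := by
    intro K hK hKsub x y hxy hx hy
    have hyT : y ∈ T := (hFK K hK x y hxy hx).resolve_left hy
    have hxS := hKsub hx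
    have hopp1 := hopp x hxS y (hFadj x y hxy)
    rcases htri x hxS with h | h | h
    · exact absurd h.1 (hKT K hK x hx)
    · exact absurd h.1 (hKI K hK x hx)
    · by_cases hyS : y ∈ S
      · rcases htri y hyS with h' | h' | h'
        · rcases h.2.2.2 with h3 | h3
          · rw [h3.1, h'.2.1] at hopp1
            exact absurd rfl hopp1
          · rw [h3.2, h'.2.2]; norm_num
        · exact absurd hyT h'.2.1
        · exact absurd hyT h'.1
      · rcases hoff x hxS y (hFadj x y hxy) hyS with h' | h'
        · rcases h.2.2.2 with h3 | h3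
          · rw [h3.2, hw0 y hyS]; norm_num
          · rw [h3.1, h'.2] at hopp1
            exact absurd rfl hopp1
        · exact absurd h'.1 (hTI y hyT)
  -- (i), one end in S
  have hi1 : ∀ x y, (y = n x ∨ x = n y) → x ∈ S → 0 ≤ w x + w y := by
    intro x y hxy hxS
    have hopp1 := hopp x hxS y (hFadj x y hxy)
    rcases htri x hxS with h | h | h
    · by_cases hyS : y ∈ S
      · rcases htri y hyS with h' | h' | h'
        · rw [h.2.2, h'.2.2]; norm_num
        · rw [h.2.2, h'.2.2.2]; norm_num
        · rcases h'.2.2.2 with h3 | h3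
          · rw [h.2.2, h3.2]; norm_num
          · rw [h.2.2, h3.2]; norm_num
      · rw [h.2.2, hw0 y hyS]; norm_num
    · have hyT := hFI x y hxy h.1
      by_cases hyS : y ∈ S
      · rcases htri y hyS with h' | h' | h'
        · rw [h.2.2.2, h'.2.2]; norm_num
        · exact absurd hyT h'.2.1
        · exact absurd hyT h'.1
      · rcases hoff x hxS y (hFadj x y hxy) hyS with h' | h'
        · rw [h.2.2.1, h'.2] at hopp1
          exact absurd rfl hopp1
        · exact absurd h'.1 (hTI y hyT)
    · obtain ⟨K, hK, hxK⟩ := h.2.2.1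
      have hKsub := hKS K hK x hxK hxS
      by_cases hyK : y ∈ K
      · have hyS := hKsub hyK
        rcases htri y hyS with h' | h' | h'
        · exact absurd h'.1 (hKT K hK y hyK)
        · exact absurd h'.1 (hKI K hK y hyK)
        · rcases h.2.2.2 with h3 | h3 <;> rcases h'.2.2.2 with h4 | h4
          · rw [h3.2, h4.2]; norm_num
          · rw [h3.2, h4.2]; norm_num
          · rw [h3.2, h4.2]; norm_num
          · rw [h3.1, h4.1] at hopp1
            exact absurd rfl hopp1
      · rw [hii K hK hKsub x y hxy hxK hyK]; norm_num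
  have hi : ∀ x, 0 ≤ w x + w (n x) := by
    intro x
    by_cases hx : x ∈ S
    · exact hi1 x (n x) (Or.inl rfl) hx
    · by_cases hy : n x ∈ S
      · have := hi1 (n x) x (Or.inr rfl) hy
        linarith
      · rw [hw0 x hx, hw0 _ hy]; norm_num
  -- the edges leaving the components
  set Q' := Q.filter (fun K => K ⊆ S) with hQ'
  set XK : Finset V → Finset V := fun K => univ.filter (fun x => ¬ (x ∈ K ↔ n x ∈ K)) with hXK
  have hcons : ∀ K : Finset V, (univ.filter (fun x => x ∉ K ∧ n x ∈ K)).card =
      (univ.filter (fun x => x ∈ K ∧ n x ∉ K)).card := by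
    intro K
    have h1 : (univ.filter (fun x => n x ∈ K)).card = (univ.filter (fun x => x ∈ K)).card := by
      apply card_bij (fun x _ => n x)
      · intro x hx
        simpa using hx
      · intro x _ y _ hxy
        exact n.injective hxy
      · intro y hy
        exact ⟨n.symm y, by simpa using hy, by simp⟩
    have h2 : (univ.filter (fun x => n x ∈ K)).card =
        (univ.filter (fun x => x ∈ K ∧ n x ∈ K)).card +
        (univ.filter (fun x => x ∉ K ∧ n x ∈ K)).card := by
      rw [← card_union_of_disjoint]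
      · congr 1
        ext x
        simp only [mem_filter, mem_univ, true_and, mem_union]
        tauto
      · rw [disjoint_left]
        intro x hx hx'
        simp only [mem_filter, mem_univ, true_and] at hx hx'
        exact hx'.1 hx.1
    have h3 : (univ.filter (fun x => x ∈ K)).card =
        (univ.filter (fun x => x ∈ K ∧ n x ∈ K)).card +
        (univ.filter (fun x => x ∈ K ∧ n x ∉ K)).card := by
      rw [← card_union_of_disjoint]
      · congr 1
        ext x
        simp only [mem_filter, mem_univ, true_and, mem_union]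
        tauto
      · rw [disjoint_left]
        intro x hx hx'
        simp only [mem_filter, mem_univ, true_and] at hx hx'
        exact hx'.2 hx.2
    omega
  have hpos : ∀ K ∈ Q', 1 ≤ (univ.filter (fun x => x ∈ K ∧ n x ∉ K)).card := by
    intro K hK
    rw [hQ', mem_filter] at hK
    obtain ⟨hK, hKsub⟩ := hK
    by_contra hcon
    have h0 : univ.filter (fun x => x ∈ K ∧ n x ∉ K) = ∅ := by
      rw [← card_eq_zero]
      omega
    have hclK : ∀ x ∈ K, n x ∈ K := by
      intro x hx
      by_contra hx'
      have : x ∈ univ.filter (fun x => x ∈ K ∧ n x ∉ K) := by simp [hx, hx']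
      rw [h0] at this
      simp at this
    have e1 : (K.filter (fun x => ρ x = Lab.I)).card ≤ (K.filter (fun x => ρ x = Lab.T)).card := by
      apply card_le_card_of_injOn (fun x => n x)
      · intro x hx
        simp only [coe_filter, Set.mem_setOf_eq] at hx ⊢
        refine ⟨hclK x hx.1, ?_⟩
        have h1 := hopp x (hKsub hx.1) (n x) (Or.inl rfl)
        rcases hval (n x) (hKsub (hclK x hx.1)) with h2 | h2
        · exact h2
        · rw [h2, hx.2] at h1
          exact absurd rfl h1
      · intro x _ y _ hxy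
        exact n.injective hxy
    have e2 : (K.filter (fun x => ρ x = Lab.T)).card ≤ (K.filter (fun x => ρ x = Lab.I)).card := by
      apply card_le_card_of_injOn (fun x => n x)
      · intro x hx
        simp only [coe_filter, Set.mem_setOf_eq] at hx ⊢
        refine ⟨hclK x hx.1, ?_⟩
        have h1 := hopp x (hKsub hx.1) (n x) (Or.inl rfl)
        rcases hval (n x) (hKsub (hclK x hx.1)) with h2 | h2
        · rw [h2, hx.2] at h1
          exact absurd rfl h1
        · exact h2
      · intro x _ y _ hxy
        exact n.injective hxy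
    have e3 : K.card = (K.filter (fun x => ρ x = Lab.I)).card +
        (K.filter (fun x => ρ x = Lab.T)).card := by
      rw [← card_union_of_disjoint]
      · congr 1
        ext x
        simp only [mem_filter, mem_union]
        constructor
        · intro hx
          rcases hval x (hKsub hx) with h2 | h2
          · exact Or.inr ⟨hx, h2⟩
          · exact Or.inl ⟨hx, h2⟩
        · rintro (h | h)
          · exact h.1
          · exact h.1
      · rw [disjoint_left]
        intro x hx hx'
        simp only [mem_filter] at hx hx'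
        rw [hx.2] at hx'
        exact absurd hx'.2 (by decide)
    obtain ⟨k, hk⟩ := hP.odd K hK
    omega
  have hXKcard : ∀ K ∈ Q', 2 ≤ (XK K).card := by
    intro K hK
    have h1 : XK K = univ.filter (fun x => x ∈ K ∧ n x ∉ K) ∪
        univ.filter (fun x => x ∉ K ∧ n x ∈ K) := by
      ext x
      simp only [hXK, mem_filter, mem_univ, true_and, mem_union]
      tauto
    rw [h1, card_union_of_disjoint]
    · have := hcons K
      have := hpos K hK
      omega
    · rw [disjoint_left]
      intro x hx hx'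
      simp only [mem_filter, mem_univ, true_and] at hx hx'
      exact hx'.1 hx.1
  have hXdis : (Q' : Set (Finset V)).PairwiseDisjoint XK := by
    intro K hK K' hK' hne
    have hK1 : K ∈ Q := (mem_filter.1 (mem_coe.1 hK)).1
    have hK1' : K' ∈ Q := (mem_filter.1 (mem_coe.1 hK')).1
    have hd := hP.kK K hK1 K' hK1' hne
    simp only [Function.onFun]
    rw [disjoint_left]
    intro x hx hx'
    simp only [hXK, mem_filter, mem_univ, true_and] at hx hx'
    by_cases h1 : x ∈ K
    · have h2 : n x ∉ K := fun h => hx ⟨fun _ => h, fun _ => h1⟩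
      have h3 : n x ∈ T := (hFK K hK1 x (n x) (Or.inl rfl) h1).resolve_left h2
      have h4 : x ∉ K' := disjoint_left.1 hd h1
      have h5 : n x ∈ K' := by
        by_contra h
        exact hx' ⟨fun h' => absurd h' h4, fun h' => absurd h' h⟩
      exact hKT K' hK1' _ h5 h3
    · have h2 : n x ∈ K := by
        by_contra h
        exact hx ⟨fun h' => absurd h' h1, fun h' => absurd h' h⟩
      have h3 : x ∈ T := (hFK K hK1 (n x) x (Or.inr rfl) h2).resolve_left h1
      have h4 : n x ∉ K' := disjoint_left.1 hd h2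
      have h5 : x ∈ K' := by
        by_contra h
        exact hx' ⟨fun h' => absurd h' h, fun h' => absurd h' h4⟩
      exact hKT K' hK1' _ h5 h3
  have hcardX : 2 * Q'.card ≤ (Q'.biUnion XK).card := by
    rw [card_biUnion (fun K hK K' hK' hne => hXdis hK hK' hne)]
    calc 2 * Q'.card = ∑ K ∈ Q', 2 := by simp [mul_comm]
      _ ≤ _ := sum_le_sum hXKcard
  have hge1 : ∀ x ∈ Q'.biUnion XK, 1 ≤ w x + w (n x) := by
    intro x hx
    rw [mem_biUnion] at hx
    obtain ⟨K, hK, hx⟩ := hx
    rw [hQ', mem_filter] at hK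
    simp only [hXK, mem_filter, mem_univ, true_and] at hx
    by_cases h1 : x ∈ K
    · have h2 : n x ∉ K := fun h => hx ⟨fun _ => h, fun _ => h1⟩
      exact (hii K hK.1 hK.2 x (n x) (Or.inl rfl) h1 h2).ge
    · have h2 : n x ∈ K := by
        by_contra h
        exact hx ⟨fun h' => absurd h' h1, fun h' => absurd h' h⟩
      have := hii K hK.1 hK.2 (n x) x (Or.inr rfl) h2 h1
      linarith
  have hsum : ((Q'.biUnion XK).card : ℤ) ≤ ∑ x, (w x + w (n x)) := by
    calc ((Q'.biUnion XK).card : ℤ) = ∑ x ∈ Q'.biUnion XK, (1 : ℤ) := by simp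
      _ ≤ ∑ x ∈ Q'.biUnion XK, (w x + w (n x)) := sum_le_sum hge1
      _ ≤ ∑ x, (w x + w (n x)) := by
        apply sum_le_sum_of_subset_of_nonneg (subset_univ _)
        intro x _ _
        exact hi x
  have hsum2 : ∑ x, (w x + w (n x)) = 2 * ∑ x, w x := by
    rw [sum_add_distrib, Equiv.sum_comp n w]
    ring
  have hsumw : ∑ x, w x = ((T ∩ S).card : ℤ) - (I ∩ S).card +
      (S.filter fun x => ρ x = Lab.I).card - (S.filter fun x => ρ x = Lab.T).card := by
    have e1 : ∑ x, w x = ∑ x ∈ S, ((if x ∈ T then (1 : ℤ) else 0) - (if x ∈ I then 1 else 0) +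
        (if ρ x = Lab.I then 1 else 0) - (if ρ x = Lab.T then 1 else 0)) := by
      rw [hw, ← sum_filter]
      congr 1
      ext x
      simp
    rw [e1, sum_sub_distrib, sum_add_distrib, sum_sub_distrib]
    rw [← sum_filter, ← sum_filter, ← sum_filter, ← sum_filter]
    simp only [sum_const, nsmul_eq_mul, mul_one]
    have e2 : S.filter (fun x => x ∈ T) = T ∩ S := by
      ext x
      simp [and_comm]
    have e3 : S.filter (fun x => x ∈ I) = I ∩ S := by
      ext x
      simp [and_comm]
    rw [e2, e3]
  rw [hsum2, hsumw] at hsum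
  have : (2 * Q'.card : ℤ) ≤ (Q'.biUnion XK).card := by exact_mod_cast hcardX
  have h5 : ((I ∩ S).card : ℤ) + Q'.card + (S.filter fun x => ρ x = Lab.T).card ≤
      (T ∩ S).card + (S.filter fun x => ρ x = Lab.I).card := by linarith
  exact_mod_cast h5

end Pool.Agent.Helper55.FR
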