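import Pool.Agent.Helper55.FR.GoalsA

/-!
# FR-XR, FR-REF
-/

namespace Pool.Agent.Helper55.FR

open Finset

theorem spc_symm {a b : Lab} (h : spc a b) : spc b a := by
  revert h
  cases a <;> cases b <;> simp [spc]

theorem spc_flip (a b : Lab) : spc (flip a) (flip b) ↔ spc a b := by
  cases a <;> cases b <;> simp [spc, flip]

theorem isK_flip (a : Lab) : isK (flip a) ↔ isK a := by
  cases a <;> simp [isK, flip]

theorem flip_inj {a b : Lab} : flip a = flip b ↔ a = b := by
  cases a <;> cases b <;> simp [flip]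

theorem xr_aux (a b c d : Lab) (h1 : isK c ∨ a ≠ c) (h2 : ¬ (isK d ∨ b ≠ d)) (hc : c ≠ Lab.O)
    (hd : d ≠ Lab.O) (ha : a ≠ Lab.O) : spc a b ∨ spc c d := by
  revert h1 h2 hc hd ha
  cases a <;> cases b <;> cases c <;> cases d <;> simp [spc, isK]

theorem xr : XrStmt := by
  intro V _ _ n f
  constructor
  · intro x hx
    simp only [Xr, Ws, Spc, mem_filter, mem_univ, true_and] at hx ⊢
    revert hx
    cases f x <;> cases f (n x) <;> simp [spc]
  · intro ρ hρ hf x hx
    simp only [Xr, Dif, Spc, mem_filter, mem_univ, true_and, mem_union] at hx ⊢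
    by_cases h1 : isK (ρ x) ∨ f x ≠ ρ x
    · have h2 : ¬ (isK (ρ (n x)) ∨ f (n x) ≠ ρ (n x)) := fun h => hx ⟨fun _ => h, fun _ => h1⟩
      exact xr_aux _ _ _ _ h1 h2 (hρ _) (hρ _) (hf _)
    · have h2 : isK (ρ (n x)) ∨ f (n x) ≠ ρ (n x) := by
        by_contra h
        exact hx ⟨fun h' => absurd h' h1, fun h' => absurd h' h⟩
      rcases xr_aux _ _ _ _ h2 h1 (hρ _) (hρ _) (hf _) with h | h
      · exact Or.inl (spc_symm h)
      · exact Or.inr (spc_symm h)

theorem ref : RefStmt := by
  intro V _ _ n m h g f hf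
  have hMM : (MM m f).card + (MK m f).card ≤ 4 * (Bad m f).card := by
    have hsub : MM m f ⊆ TT m f ∪ Bad m f := by
      intro x hx
      simp only [MM, TT, Bad, mem_filter, mem_univ, true_and, mem_union] at hx ⊢
      have h1 := hf.noO x
      have h2 := hf.noO (m x)
      obtain ⟨ha, hb⟩ := hx
      rw [hb]
      rw [hb] at h2
      revert ha h1 h2
      cases f x <;> simp [isK, bad]
    have h1 := card_le_card hsub
    have h2 := card_union_le (TT m f) (Bad m f)
    have h3 := hf.cT
    omega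
  have hKs : Ks (flip ∘ f) = Ks f := by
    ext x
    simp [Ks, isK_flip]
  have hSpc : Spc n (flip ∘ f) = Spc n f := by
    ext x
    simp [Spc, spc_flip]
  have hMMf : MM m (flip ∘ f) = MM m f := by
    ext x
    simp [MM, isK_flip, flip_inj]
  have hMKf : MK m (flip ∘ f) = MK m f := by
    ext x
    simp [MK, isK_flip]
  constructor
  · exact ⟨hf.noO, hf.cK, hf.cS, hMM⟩
  · refine ⟨?_, ?_, ?_, ?_⟩
    · intro x
      have := hf.noO x
      simp only [Function.comp]
      revert this
      cases f x <;> simp [flip]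
    · rw [hKs]
      exact hf.cK
    · rw [hSpc]
      exact hf.cS
    · rw [hMMf, hMKf]
      exact hMM

end Pool.Agent.Helper55.FR
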